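import Pool.Agent.AA.St

/-!
# Module BAD: few bad times
-/

namespace Pool.Agent.AA

open Pool.Agent.MP7725

/-- bad time -/
def BAD_p (K : ℕ) (q w : List Bool) (t : ℕ) : Prop := ¬ ∃ r, Que q (w.take t) r ∧ r.length ≤ K

lemma BAD_bd (K : ℕ) (q w : List Bool) :
    bd K q w = ∑ t ∈ Finset.range w.length, I (BAD_p K q w t) := rfl

lemma BAD_first_le (K : ℕ) (q w : List Bool) (t : ℕ) :
    ∑ s ∈ Finset.range t, I (BAD_p K q w s) ≤ t := by
  calc ∑ s ∈ Finset.range t, I (BAD_p K q w s) ≤ ∑ _s ∈ Finset.range t, (1 : ℝ) :=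
        Finset.sum_le_sum (fun s _ => I_le_one _)
    _ = t := by simp

lemma BAD_first_zero (K : ℕ) (q w : List Bool) (t : ℕ) (h : q.length + t ≤ K) :
    ∑ s ∈ Finset.range t, I (BAD_p K q w s) = 0 := by
  apply Finset.sum_eq_zero
  intro s hs
  apply I_of_not
  intro hb
  apply hb
  refine ⟨gr q (w.take s), que_gr _ _, ?_⟩
  have h1 := gr_length_le q (w.take s)
  have h2 : (w.take s).length ≤ s := by
    rw [List.length_take]
    exact min_le_left _ _
  have h3 := Finset.mem_range.mp hs
  omega

lemma BAD_split (K : ℕ) (q q' u v : List Bool) (hq : Que q u q') :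
    bd K q (u ++ v) ≤ ∑ s ∈ Finset.range u.length, I (BAD_p K q (u ++ v) s) + bd K q' v := by
  rw [BAD_bd, BAD_bd, List.length_append, Finset.sum_range_add]
  gcongr with s hs
  apply I_mono
  rintro h ⟨r, h1, h2⟩
  apply h
  refine ⟨r, ?_, h2⟩
  have : (u ++ v).take (u.length + s) = u ++ v.take s := by
    rw [List.take_length_add_append]
  rw [this]
  exact hq.trans h1

lemma BAD_bd_nonneg (K : ℕ) (q w : List Bool) : 0 ≤ bd K q w :=
  Finset.sum_nonneg (fun _ _ => I_nonneg _)

lemma BAD_main (K₁ : ℕ) (hK₁ : 1 ≤ K₁)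
    (hLAP : ∀ q : List Bool, R2 q → K₁ ≤ q.length → ∃ F : List Bool → List Bool,
      (∀ w, w.length = 8 * q.length → Que q w (F w) ∧ R2 (F w)) ∧
      E (8 * q.length) (fun w => ((F w).length : ℝ) ^ 4) ≤
        (q.length : ℝ) ^ 4 - (q.length : ℝ) ^ 3)
    (κ : ℕ) (hκK : K₁ ≤ κ) (n : ℕ) : ∀ q : List Bool, R2 q →
      E n (bd (9 * κ) q) ≤ 8 / (κ : ℝ) ^ 2 * (q.length : ℝ) ^ 4 +
        8 / (κ : ℝ) ^ 2 * (6 * (K₁ : ℝ) ^ 2 + 1) * n := by
  have hκ : 1 ≤ κ := hK₁.trans hκK
  have hκR : (1 : ℝ) ≤ κ := by exact_mod_cast hκ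
  have hκ0 : (0 : ℝ) < κ := by linarith
  set A : ℝ := 8 / (κ : ℝ) ^ 2 with hA
  have hA0 : 0 ≤ A := by positivity
  set β : ℝ := A * (6 * (K₁ : ℝ) ^ 2 + 1) with hβ
  have hβ0 : 0 ≤ β := by positivity
  induction n using Nat.strong_induction_on with
  | _ n ih =>
    intro q hq
    set k := q.length with hk
    have hk0 : (0 : ℝ) ≤ k := Nat.cast_nonneg k
    rcases Nat.eq_zero_or_pos n with hn | hn
    · subst hn
      rw [E_zero]
      have : bd (9 * κ) q [] = 0 := by
        rw [BAD_bd]
        simp
      rw [this]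
      positivity
    · by_cases hkK : k < K₁
      · -- one greedy step
        obtain ⟨n', rfl⟩ : ∃ n', n = n' + 1 := ⟨n - 1, by omega⟩
        have hkk : k + 1 ≤ 9 * κ := by omega
        · have step : ∀ a : Bool, E n' (fun w => bd (9 * κ) q (a :: w)) ≤
              A * ((st q a).length : ℝ) ^ 4 + β * n' := by
            intro a
            refine le_trans ?_ (ih n' (by omega) (st q a) (r2_st hq a))
            apply E_mono
            intro w _
            have h1 := BAD_split (9 * κ) q (st q a) [a] w (que_st q a)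
            have h2 := BAD_first_zero (9 * κ) q ([a] ++ w) 1 (by omega)
            rw [List.length_singleton, h2, zero_add] at h1
            exact h1
          have h3 := step true
          have h4 := step false
          have h5 := E_gr 1 q
          rw [E_succ, E_zero, E_zero] at h5
          have h6 : gr q [true] = st q true := rfl
          have h7 : gr q [false] = st q false := rfl
          rw [h6, h7] at h5
          unfold hh at h5
          push_cast at h5
          rw [E_succ]
          push_cast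
          have h8 : (k : ℝ) ≤ K₁ := by exact_mod_cast hkK.le
          have h9 : (k : ℝ) ^ 2 ≤ (K₁ : ℝ) ^ 2 := by gcongr
          have h10 : A * (6 * (k : ℝ) ^ 2 + 1) ≤ β := by
            rw [hβ]
            gcongr
          rw [← hk] at h5
          have h11 : A * ((st q true).length : ℝ) ^ 4 + A * ((st q false).length : ℝ) ^ 4 =
              2 * (A * ((k : ℝ) ^ 4 + 6 * (k : ℝ) ^ 2 + 1)) := by
            have : ((st q true).length : ℝ) ^ 4 + ((st q false).length : ℝ) ^ 4 =
                2 * ((k : ℝ) ^ 4 + 6 * (k : ℝ) ^ 2 + 1) := by linarith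
            rw [← mul_add, this]
            ring
          nlinarith
      · push Not at hkK
        obtain ⟨F, hF1, hF2⟩ := hLAP q hq hkK
        have hk1 : 1 ≤ k := le_trans hK₁ hkK
        have hk1R : (1 : ℝ) ≤ k := by exact_mod_cast hk1
        by_cases hn8 : 8 * k ≤ n
        · obtain ⟨m, rfl⟩ := Nat.exists_eq_add_of_le hn8
          rw [E_append]
          -- bound of the first part
          obtain ⟨c, hc0, hc1, hc2⟩ : ∃ c : ℝ, 0 ≤ c ∧ c ≤ A * (k : ℝ) ^ 3 ∧
              ∀ u v : List Bool, u.length = 8 * k →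
                ∑ s ∈ Finset.range (8 * k), I (BAD_p (9 * κ) q (u ++ v) s) ≤ c := by
            by_cases hkκ : k ≤ κ
            · refine ⟨0, le_refl 0, by positivity, fun u v _ => ?_⟩
              rw [BAD_first_zero]
              omega
            · push Not at hkκ
              refine ⟨8 * k, by positivity, ?_, fun u v _ => ?_⟩
              · have h1 : (κ : ℝ) ≤ k := by exact_mod_cast hkκ.le
                have h2 : A * (κ : ℝ) ^ 2 = 8 := by
                  rw [hA]
                  field_simp
                have h3 : (κ : ℝ) ^ 2 ≤ (k : ℝ) ^ 2 := by gcongr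
                have h4 := mul_le_mul_of_nonneg_left h3 hA0
                have h5 : A * (k : ℝ) ^ 3 = A * (k : ℝ) ^ 2 * k := by ring
                rw [h5]
                nlinarith
              · have := BAD_first_le (9 * κ) q (u ++ v) (8 * k)
                push_cast at this
                exact this
          have h1 : E (8 * k) (fun u => E m (fun v => bd (9 * κ) q (u ++ v))) ≤
              E (8 * k) (fun u => (c + β * m) + A * ((F u).length : ℝ) ^ 4) := by
            apply E_mono
            intro u hu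
            obtain ⟨hu1, hu2⟩ := hF1 u hu
            have h2 : E m (fun v => bd (9 * κ) q (u ++ v)) ≤
                E m (fun v => c + bd (9 * κ) (F u) v) := by
              apply E_mono
              intro v _
              have h3 := BAD_split (9 * κ) q (F u) u v hu1
              rw [hu] at h3
              have h4 := hc2 u v hu
              linarith
            rw [E_add, E_const] at h2
            have h5 := ih m (by omega) (F u) hu2
            linarith
          rw [E_add, E_const, E_mul] at h1
          have h6 := mul_le_mul_of_nonneg_left hF2 hA0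
          push_cast
          have h7 : 0 ≤ β * (8 * (k : ℝ)) := by positivity
          nlinarith
        · push Not at hn8
          by_cases hkκ : k ≤ κ
          · have : E n (bd (9 * κ) q) ≤ E n (fun _ => 0) := by
              apply E_mono
              intro w hw
              rw [BAD_bd, hw, BAD_first_zero]
              omega
            rw [E_const] at this
            refine le_trans this ?_
            positivity
          · push Not at hkκ
            have : E n (bd (9 * κ) q) ≤ E n (fun _ => (n : ℝ)) := by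
              apply E_mono
              intro w hw
              rw [BAD_bd, hw]
              exact BAD_first_le _ _ _ _
            rw [E_const] at this
            have h1 : (κ : ℝ) ≤ k := by exact_mod_cast hkκ.le
            have h2 : A * (κ : ℝ) ^ 2 = 8 := by
              rw [hA]
              field_simp
            have h3 : (κ : ℝ) ^ 2 ≤ (k : ℝ) ^ 2 := by gcongr
            have h4 := mul_le_mul_of_nonneg_left h3 hA0
            have h5 : (n : ℝ) ≤ 8 * k := by exact_mod_cast hn8.le
            have h6 : (k : ℝ) ≤ k ^ 2 := by nlinarith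
            have h7 : A * (k : ℝ) ^ 4 = A * (k : ℝ) ^ 2 * (k : ℝ) ^ 2 := by ring
            have h8 : 8 * (k : ℝ) ≤ A * (k : ℝ) ^ 4 := by
              rw [h7]
              nlinarith
            have h9 : 0 ≤ β * n := by positivity
            linarith

theorem t_BAD : M_BAD := by
  rintro ⟨K₀, hK₀⟩
  set K₁ := K₀ + 1 with hK₁
  have hLAP : ∀ q : List Bool, R2 q → K₁ ≤ q.length → ∃ F : List Bool → List Bool,
      (∀ w, w.length = 8 * q.length → Que q w (F w) ∧ R2 (F w)) ∧
      E (8 * q.length) (fun w => ((F w).length : ℝ) ^ 4) ≤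
        (q.length : ℝ) ^ 4 - (q.length : ℝ) ^ 3 :=
    fun q hq hk => hK₀ q hq (by omega)
  refine ⟨2592 * (6 * (K₁ : ℝ) ^ 2 + 1) + 9 * K₁, by positivity, ?_⟩
  intro K n hK
  have hK0 : (0 : ℝ) < K := by exact_mod_cast hK
  have hK1 : (1 : ℝ) ≤ K := by exact_mod_cast hK
  have hn0 : (0 : ℝ) ≤ n := Nat.cast_nonneg n
  rw [le_div_iff₀ hK0]
  by_cases hbig : 9 * K₁ ≤ K
  · set κ := K / 9 with hκ
    have h1 : K₁ ≤ κ := by omega
    have h2 := BAD_main K₁ (by omega) hLAP κ h1 n [] r2_nil
    have h3 : E n (bd K []) ≤ E n (bd (9 * κ) []) := by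
      apply E_mono
      intro w _
      apply Finset.sum_le_sum
      intro t _
      apply I_mono
      rintro h ⟨r, h4, h5⟩
      exact h ⟨r, h4, by omega⟩
    simp only [List.length_nil, Nat.cast_zero] at h2
    have h4 : (K : ℝ) ≤ 18 * κ := by
      have : K ≤ 18 * κ := by omega
      exact_mod_cast this
    have hκ0 : (0 : ℝ) < κ := by
      have : 0 < κ := by omega
      exact_mod_cast this
    have h5 : 8 / (κ : ℝ) ^ 2 * K ≤ 2592 := by
      have h6 : (1 : ℝ) ≤ K := hK1
      rw [div_mul_eq_mul_div, div_le_iff₀ (by positivity)]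
      nlinarith
    have h7 : E n (bd K []) ≤ 8 / (κ : ℝ) ^ 2 * (6 * (K₁ : ℝ) ^ 2 + 1) * n := by
      have h8 : 8 / (κ : ℝ) ^ 2 * (0 : ℝ) ^ 4 = 0 := by ring
      rw [h8, zero_add] at h2
      exact h3.trans h2
    have h9 : E n (bd K []) * K ≤ 8 / (κ : ℝ) ^ 2 * (6 * (K₁ : ℝ) ^ 2 + 1) * n * K :=
      mul_le_mul_of_nonneg_right h7 hK0.le
    have h10 : 8 / (κ : ℝ) ^ 2 * (6 * (K₁ : ℝ) ^ 2 + 1) * n * K =
        (8 / (κ : ℝ) ^ 2 * K) * ((6 * (K₁ : ℝ) ^ 2 + 1) * n) := by ring
    have h11 : (8 / (κ : ℝ) ^ 2 * K) * ((6 * (K₁ : ℝ) ^ 2 + 1) * n) ≤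
        2592 * ((6 * (K₁ : ℝ) ^ 2 + 1) * n) :=
      mul_le_mul_of_nonneg_right h5 (by positivity)
    have h12 : 0 ≤ 9 * (K₁ : ℝ) * n := by positivity
    rw [h10] at h9
    nlinarith
  · push Not at hbig
    have h1 : E n (bd K []) ≤ E n (fun _ => (n : ℝ)) := by
      apply E_mono
      intro w hw
      rw [BAD_bd, hw]
      exact BAD_first_le _ _ _ _
    rw [E_const] at h1
    have h2 : (K : ℝ) ≤ 9 * K₁ := by exact_mod_cast hbig.le
    have h3 : E n (bd K []) * K ≤ n * K := mul_le_mul_of_nonneg_right h1 hK0.le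
    have h4 : (n : ℝ) * K ≤ n * (9 * K₁) := mul_le_mul_of_nonneg_left h2 hn0
    have h5 : 0 ≤ 2592 * (6 * (K₁ : ℝ) ^ 2 + 1) * n := by positivity
    nlinarith

end Pool.Agent.AA
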