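import Pool.Agent.AA.St

/-!
# Module DET: the construction
-/

namespace Pool.Agent.AA

open Pool.Agent.MP7725

/-- every word is a shuffle of its letters `a` and of its letters `!a` -/
lemma DET_shuf (a : Bool) (w : List Bool) :
    Shuf (List.replicate (w.count a) a) (List.replicate (w.count (!a)) (!a)) w := by
  induction w with
  | nil => exact Shuf.nil
  | cons b l ih =>
    rcases Bool.eq_or_eq_not b a with hb | hb
    · subst hb
      simpa [List.count_cons, List.replicate_succ] using Shuf.left b ih
    · subst hb
      simpa [List.count_cons, List.replicate_succ] using Shuf.right (!a) ih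

lemma DET_shuf' (b : Bool) (w : List Bool) :
    Shuf (List.replicate (w.count (!b)) (!b)) (List.replicate (w.count b) b) w := by
  have h := DET_shuf (!b) w
  rwa [Bool.not_not] at h

/-- first part of the other reading -/
lemma DET_one (b : Bool) (J j X : ℕ) (s t s2 : List Bool) (hj : j = s2.count b) (hJ : j ≤ J)
    (hX : (s ++ List.replicate J b ++ t).count b = X) :
    Que (List.replicate X b) (s ++ List.replicate J b ++ t ++ s2)
      (List.replicate (s.count (!b)) (!b) ++ List.replicate j b ++
        List.replicate (t.count (!b) + s2.count (!b)) (!b)) := by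
  obtain ⟨i, rfl⟩ : ∃ i, J = j + i := ⟨J - j, by omega⟩
  have e1 : s ++ List.replicate (j + i) b ++ t ++ s2 =
      s ++ List.replicate j b ++ (List.replicate i b ++ t ++ s2) := by
    rw [← List.replicate_append_replicate]
    simp only [List.append_assoc]
  have h1 := ((DET_shuf' b s).append (Shuf.all_left (List.replicate j b))).append
    (DET_shuf' b (List.replicate i b ++ t ++ s2))
  have c1 : (List.replicate i b ++ t ++ s2).count (!b) = t.count (!b) + s2.count (!b) := by
    rw [List.count_append, List.count_append, List.count_replicate, if_neg (by simp), zero_add]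
  have c2 : (List.replicate i b ++ t ++ s2).count b = i + t.count b + j := by
    rw [List.count_append, List.count_append, List.count_replicate_self, ← hj]
  rw [c1, c2, List.append_nil, List.replicate_append_replicate] at h1
  rw [e1]
  refine ⟨_, _, h1, ?_⟩
  congr 2
  rw [List.count_append, List.count_append, List.count_replicate_self] at hX
  omega

/-- second part of the other reading -/
lemma DET_two (b : Bool) (j m : ℕ) (s3 : List Bool) :
    Que (List.replicate (s3.count (!b)) (!b) ++ List.replicate j b ++ List.replicate m (!b))
      (s3 ++ List.replicate j b)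
      (List.replicate m (!b) ++ List.replicate (s3.count b) b) := by
  have h1 := (DET_shuf b s3).append (Shuf.all_right (List.replicate j b))
  rw [List.append_nil] at h1
  exact ⟨_, _, h1, by simp only [List.append_assoc]⟩

/-- the greedy queue at the end -/
lemma DET_gr (b : Bool) (x y : ℕ) (v0 v1 w : List Bool) (h1 : (v0 ++ [!b]).count (!b) = x)
    (h2 : (v1 ++ [b]).count b = y + v0.count b) (h3 : w.count (!b) < v1.count (!b)) :
    (gr (List.replicate x (!b) ++ List.replicate y b) (v0 ++ [!b] ++ (v1 ++ [b]) ++ w)).length =
      v1.count (!b) - w.count (!b) + w.count b := by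
  have e1 := gr_phase (!b) x y v0 h1
  rw [Bool.not_not] at e1
  have e2 := gr_phase b (y + v0.count b) 0 v1 h2
  rw [List.replicate_zero, List.append_nil, zero_add] at e2
  have e3 := gr_two (!b) (v1.count (!b)) 0 w h3
  rw [List.replicate_zero, List.append_nil, zero_add, Bool.not_not] at e3
  rw [gr_append, gr_append, e1, e2, e3, List.length_append, List.length_replicate,
    List.length_replicate]

theorem t_DET : S_DET := by
  intro b G J x y v0 v1 s t s2 s3 h1 h2 h3 h4 h5 h6 h7
  have ct : s.count (!b) + t.count (!b) = v1.count (!b) := by
    have h8 := congrArg (List.count (!b)) h3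
    rw [List.count_append, List.count_append, List.count_append, List.count_replicate,
      if_neg (by simp), List.count_singleton, if_neg (by simp)] at h8
    omega
  have p1 : Que (List.replicate x (!b) ++ List.replicate y b) (v0 ++ [!b])
      (List.replicate (y + v0.count b) b) := by
    have e1 := gr_phase (!b) x y v0 h1
    rw [Bool.not_not] at e1
    have e2 := que_gr (List.replicate x (!b) ++ List.replicate y b) (v0 ++ [!b])
    rwa [e1] at e2
  have p2 := DET_one b J (s2.count b) (y + v0.count b) s t s2 rfl h5 (by rw [h3, h2])
  rw [h3] at p2
  have p3 := DET_two b (s2.count b) (t.count (!b) + s2.count (!b)) s3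
  rw [h6] at p3
  have p4 := (p1.trans p2).trans p3
  have e4 : v0 ++ [!b] ++ (v1 ++ [b] ++ s2) ++ (s3 ++ List.replicate (s2.count b) b) =
      v0 ++ [!b] ++ (v1 ++ [b]) ++ s2 ++ s3 ++ List.replicate (s2.count b) b := by
    simp only [List.append_assoc]
  have e5 : v0 ++ [!b] ++ (v1 ++ [b]) ++ s2 ++ s3 ++ List.replicate (s2.count b) b =
      v0 ++ [!b] ++ (v1 ++ [b]) ++ (s2 ++ s3 ++ List.replicate (s2.count b) b) := by
    simp only [List.append_assoc]
  rw [e4] at p4
  have c1 : (s2 ++ s3 ++ List.replicate (s2.count b) b).count (!b) =
      s2.count (!b) + s3.count (!b) := by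
    rw [List.count_append, List.count_append, List.count_replicate, if_neg (by simp), add_zero]
  have c2 : (s2 ++ s3 ++ List.replicate (s2.count b) b).count b =
      s2.count b + s3.count b + s2.count b := by
    rw [List.count_append, List.count_append, List.count_replicate_self]
  refine ⟨_, p4, ⟨!b, t.count (!b) + s2.count (!b), s3.count b, by rw [Bool.not_not]⟩, ?_, ?_⟩
  · rw [e5, DET_gr b x y v0 v1 _ h1 h2 (by rw [c1]; exact h7), c1, c2, List.length_append,
      List.length_replicate, List.length_replicate]
    omega
  · rw [List.length_append, List.length_replicate, List.length_replicate]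
    omega

end Pool.Agent.AA
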