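import Pool.Agent.AA.St

/-!
# Module FA: composition of the forward and the backward reading
-/

namespace Pool.Agent.AA

open Pool.Agent.MP7725

lemma FA_even_last {q w r : List Bool} (h : Que q w r) (hq : EvenWord q) (hw : EvenWord w) :
    EvenWord r := by
  intro b
  obtain ⟨x, hx⟩ := que_even_count h b
  obtain ⟨y, hy⟩ := hq b
  obtain ⟨z, hz⟩ := hw b
  exact ⟨x - y - z, by omega⟩

lemma FA_even_first {q w r : List Bool} (h : Que q w r) (hr : EvenWord r) (hw : EvenWord w) :
    EvenWord q := by
  intro b
  obtain ⟨x, hx⟩ := que_even_count h b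
  obtain ⟨y, hy⟩ := hr b
  obtain ⟨z, hz⟩ := hw b
  exact ⟨x - y - z, by omega⟩

theorem t_FA : S_FA := by
  intro K u hu p w hw hF hr hr'
  obtain ⟨r, h1, h2⟩ := hr
  obtain ⟨r', h3, h4⟩ := hr'
  obtain ⟨hF1, ⟨t, hF2⟩⟩ := hF
  have hnil : EvenWord [] := fun b => by simp
  have hlen : (u ++ u.reverse).length = 2 * u.length := by
    rw [List.length_append, List.length_reverse]
    omega
  have ht : w.drop (p + 2 * u.length) = t := by
    rw [← List.drop_drop, ← hF2, ← hlen, List.drop_left']
    rfl
  rw [ht] at h3
  have hwe : w = w.take p ++ ((u ++ u.reverse) ++ t) := by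
    rw [hF2, List.take_append_drop]
  have htE : EvenWord t := by
    intro b
    obtain ⟨x, hx⟩ := hw b
    obtain ⟨y, hy⟩ := hF1 b
    have h5 : w.count b = (w.take p).count b + ((u.count b + u.reverse.count b) + t.count b) := by
      conv_lhs => rw [hwe]
      rw [List.count_append, List.count_append, List.count_append]
    rw [List.count_reverse] at h5
    exact ⟨x - y - u.count b, by omega⟩
  have hrE : EvenWord r := FA_even_last h1 hnil hF1
  have hrE' : EvenWord r' := FA_even_first h3 hnil htE
  have h5 : Que r u [] := hu r hrE h2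
  have h6 : Que r'.reverse u [] := by
    apply hu
    · intro b
      rw [List.count_reverse]
      exact hrE' b
    · rw [List.length_reverse]
      exact h4
  have h7 := que_reverse h6
  rw [List.reverse_reverse, List.reverse_nil] at h7
  rw [hwe]
  exact h1.trans ((h5.trans h7).trans h3)

end Pool.Agent.AA
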