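import Pool.Agent.AA.St

/-!
# Module FB: the factor occurs at one of the places
-/

namespace Pool.Agent.AA

open Pool.Agent.MP7725

lemma FB_word (x : List Bool) (m : ℕ) :
    E (x.length + m) (fun t => I (x <+: t)) = (1 / 2 : ℝ) ^ x.length := by
  induction x with
  | nil =>
    rw [List.length_nil, pow_zero]
    have : ∀ t : List Bool, I ([] <+: t) = 1 := fun t => I_of List.nil_prefix
    simp only [this]
    exact E_const _ _
  | cons a x ih =>
    have h0 : (a :: x).length + m = (x.length + m) + 1 := by
      simp only [List.length_cons]
      omega
    have h1 : ∀ (b : Bool) (t : List Bool), I (a :: x <+: b :: t) =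
        if a = b then I (x <+: t) else 0 := by
      intro b t
      by_cases h : a = b
      · rw [if_pos h]
        apply I_congr
        rw [List.cons_prefix_cons]
        exact ⟨fun h => h.2, fun h' => ⟨h, h'⟩⟩
      · rw [if_neg h]
        apply I_of_not
        rw [List.cons_prefix_cons]
        exact fun h' => h h'.1
    rw [h0, E_succ, List.length_cons, pow_succ, ← ih]
    simp only [h1]
    cases a
    · have e1 : (false = true) = False := by simp
      simp only [e1, if_false, if_true, E_const]
      ring
    · have e1 : (true = false) = False := by simp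
      simp only [e1, if_false, if_true, E_const]
      ring

lemma FB_len (w : List Bool) : w.count true + w.count false = w.length := by
  induction w with
  | nil => rfl
  | cons a w ih => cases a <;> simp <;> omega

/-- a continuation of a word of even length with the factor at the right place -/
lemma FB_pad (F u : List Bool) (hu : Even u.length) :
    ∃ x : List Bool, x.length = F.length + 2 ∧ ∀ t, x <+: t → Fa F (u.length + 2) (u ++ t) := by
  have hlen := FB_len u
  obtain ⟨pad, hp, he⟩ : ∃ pad : List Bool, pad.length = 2 ∧ EvenWord (u ++ pad) := by
    by_cases h : Even (u.count true)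
    · refine ⟨[false, false], rfl, ?_⟩
      have h2 : Even (u.count false) := by
        obtain ⟨a, ha⟩ := h
        obtain ⟨c, hc⟩ := hu
        exact ⟨c - a, by omega⟩
      intro b
      cases b
      · rw [List.count_append]
        simpa using h2.add (even_two : Even 2)
      · rw [List.count_append]
        simpa using h
    · refine ⟨[true, false], rfl, ?_⟩
      rw [Nat.not_even_iff_odd] at h
      obtain ⟨a, ha⟩ := h
      obtain ⟨c, hc⟩ := hu
      intro b
      cases b
      · rw [List.count_append]
        refine ⟨c - a, ?_⟩
        simp
        omega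
      · rw [List.count_append]
        refine ⟨a + 1, ?_⟩
        simp
        omega
  refine ⟨pad ++ F, by rw [List.length_append, hp]; omega, ?_⟩
  rintro t ⟨z, rfl⟩
  have h1 : u ++ (pad ++ F ++ z) = (u ++ pad) ++ (F ++ z) := by simp
  have h2 : u.length + 2 = (u ++ pad).length := by rw [List.length_append, hp]
  rw [h1, h2]
  refine ⟨?_, ?_⟩
  · rw [List.take_left']
    · exact he
    · rfl
  · rw [List.drop_left']
    · exact List.prefix_append _ _
    · rfl

lemma FB_ext (F : List Bool) (p : ℕ) (u t : List Bool) (h : p + F.length ≤ u.length)
    (hF : Fa F p u) : Fa F p (u ++ t) := by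
  refine ⟨?_, ?_⟩
  · rw [List.take_append_of_le_length (by omega)]
    exact hF.1
  · rw [List.drop_append_of_le_length (by omega)]
    exact hF.2.trans (List.prefix_append _ _)

theorem t_FB : S_FB := by
  intro F c M n hc hF hn
  set d := F.length + 2 with hd
  have hd2 : Even d := hF.add (even_two)
  have hx0 : (0 : ℝ) ≤ 1 - (1 / 2 : ℝ) ^ d := by
    have : (1 / 2 : ℝ) ^ d ≤ 1 := pow_le_one₀ (by norm_num) (by norm_num)
    linarith
  induction M generalizing n with
  | zero =>
    rw [pow_zero]
    exact E_I_le_one _ _
  | succ M ih =>
    set p := c + M * d with hp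
    have hpe : Even p := hc.add (hd2.mul_left M)
    have hpn : p + d ≤ n := by
      rw [hp]
      rw [Nat.succ_mul] at hn
      omega
    obtain ⟨m, hm⟩ := Nat.exists_eq_add_of_le hpn
    have hm' : n = p + (d + m) := by omega
    rw [hm', E_append, pow_succ, mul_comm]
    have h1 : E p (fun u => E (d + m) (fun t =>
        I (∀ i < M + 1, ¬ Fa F (c + i * d + 2) (u ++ t)))) ≤
        E p (fun u => (1 - (1 / 2 : ℝ) ^ d) * I (∀ i < M, ¬ Fa F (c + i * d + 2) u)) := by
      apply E_mono
      intro u hu
      obtain ⟨x, hx1, hx2⟩ := FB_pad F u (by rw [hu]; exact hpe)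
      rw [hu] at hx2
      by_cases hA : ∀ i < M, ¬ Fa F (c + i * d + 2) u
      · rw [I_of hA, mul_one]
        have h2 : E (d + m) (fun t => I (∀ i < M + 1, ¬ Fa F (c + i * d + 2) (u ++ t))) ≤
            E (d + m) (fun t => 1 - I (x <+: t)) := by
          apply E_mono
          intro t _
          rw [← I_not]
          apply I_mono
          intro h hxt
          exact h M (Nat.lt_succ_self M) (hx2 t hxt)
        rw [E_sub, E_const] at h2
        have h3 := FB_word x m
        rw [hx1, ← hd] at h3
        rw [h3] at h2
        exact h2
      · rw [I_of_not hA, mul_zero]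
        have h2 : E (d + m) (fun t => I (∀ i < M + 1, ¬ Fa F (c + i * d + 2) (u ++ t))) ≤
            E (d + m) (fun _ => 0) := by
          apply E_mono
          intro t _
          rw [I_of_not]
          intro h
          apply hA
          intro i hi hFa
          refine h i (Nat.lt_succ_of_lt hi) (FB_ext F _ u t ?_ hFa)
          have h3 : (i + 1) * d ≤ M * d := Nat.mul_le_mul_right d hi
          rw [Nat.succ_mul] at h3
          rw [hu]
          omega
        rw [E_const] at h2
        exact h2
    refine h1.trans ?_
    rw [E_mul]
    exact mul_le_mul_of_nonneg_left (ih p (le_refl _)) hx0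

end Pool.Agent.AA
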