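import Pool.Agent.AA.St

/-!
# Module FC: choice of a starting place
-/

namespace Pool.Agent.AA

theorem t_FC : S_FC := by
  intro g n M d B hg hB hn hd
  set N := n / 4 with hN
  have hN1 : 1 ≤ N := by omega
  have hB0 : 0 ≤ B := le_trans (Finset.sum_nonneg (fun p _ => hg p)) hB
  have key : ∑ c ∈ Finset.range N, ∑ i ∈ Finset.range M, g (2 * c + i * d) ≤ M * B := by
    rw [Finset.sum_comm]
    have h1 : ∀ i ∈ Finset.range M, ∑ c ∈ Finset.range N, g (2 * c + i * d) ≤ B := by
      intro i hi
      refine le_trans ?_ hB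
      have hinj : Set.InjOn (fun c => 2 * c + i * d) (Finset.range N : Set ℕ) := by
        intro a _ b _ hab
        simp only at hab
        omega
      rw [← Finset.sum_image (f := g) (g := fun c => 2 * c + i * d) hinj]
      apply Finset.sum_le_sum_of_subset_of_nonneg
      · intro p hp
        rw [Finset.mem_image] at hp
        obtain ⟨c, hc, rfl⟩ := hp
        rw [Finset.mem_range] at hc hi ⊢
        have h2 : i * d ≤ M * d := Nat.mul_le_mul_right d hi.le
        omega
      · intro p _ _
        exact hg p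
    refine (Finset.sum_le_sum h1).trans ?_
    rw [Finset.sum_const, Finset.card_range, nsmul_eq_mul]
  have hNR : (0 : ℝ) < N := by exact_mod_cast hN1
  have hnR : (0 : ℝ) < n := by
    have : 0 < n := by omega
    exact_mod_cast this
  obtain ⟨c, hc, hc2⟩ : ∃ c ∈ Finset.range N,
      ∑ i ∈ Finset.range M, g (2 * c + i * d) ≤ M * B / N := by
    apply Finset.exists_le_of_sum_le
    · exact ⟨0, Finset.mem_range.mpr hN1⟩
    · rw [Finset.sum_const, Finset.card_range, nsmul_eq_mul]
      refine key.trans (le_of_eq ?_)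
      field_simp
  rw [Finset.mem_range] at hc
  refine ⟨2 * c, even_two_mul c, by omega, hc2.trans ?_⟩
  rw [div_le_div_iff₀ hNR hnR]
  have h8 : (n : ℝ) ≤ 8 * N := by
    have : n ≤ 8 * N := by omega
    exact_mod_cast this
  have hMB : 0 ≤ (M : ℝ) * B := mul_nonneg (Nat.cast_nonneg M) hB0
  have h9 : (M : ℝ) * B * n ≤ M * B * (8 * N) := mul_le_mul_of_nonneg_left h8 hMB
  linarith

end Pool.Agent.AA
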