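import Pool.Agent.AA.St

/-!
# Module HIT: the simple random walk hits every level
-/

namespace Pool.Agent.AA

open Pool.Agent.MP7725 Filter Topology

/-- the probability that the level `g` is not hit in `n` steps -/
noncomputable def HIT_p (b : Bool) (n g : ℕ) : ℝ :=
  E n (fun w => I (∀ v, v <+: w → v.count b < v.count (!b) + g))

lemma HIT_succ (b : Bool) (n : ℕ) (f : List Bool → ℝ) :
    E (n + 1) f = (E n (fun w => f (b :: w)) + E n (fun w => f ((!b) :: w))) / 2 := by
  rw [E_succ]
  cases b
  · rw [Bool.not_false, add_comm]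
  · rw [Bool.not_true]

lemma HIT_zero (b : Bool) (n : ℕ) : HIT_p b n 0 = 0 := by
  unfold HIT_p
  rw [← E_const n 0]
  apply E_congr
  intro w _
  apply I_of_not
  intro h
  have := h [] List.nil_prefix
  simp at this

lemma HIT_rec (b : Bool) (n g : ℕ) :
    HIT_p b (n + 1) (g + 1) = (HIT_p b n g + HIT_p b n (g + 2)) / 2 := by
  unfold HIT_p
  rw [HIT_succ b]
  congr 2
  · apply E_congr
    intro w _
    apply I_congr
    constructor
    · intro h v hv
      have := h (b :: v) ((List.cons_prefix_cons).mpr ⟨rfl, hv⟩)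
      rw [List.count_cons_self, List.count_cons_of_ne (by simp)] at this
      omega
    · intro h v hv
      cases v with
      | nil => simp
      | cons c v =>
        rw [List.cons_prefix_cons] at hv
        rw [hv.1]
        have := h v hv.2
        rw [List.count_cons_self, List.count_cons_of_ne (by simp)]
        omega
  · apply E_congr
    intro w _
    apply I_congr
    constructor
    · intro h v hv
      have := h ((!b) :: v) ((List.cons_prefix_cons).mpr ⟨rfl, hv⟩)
      rw [List.count_cons_self, List.count_cons_of_ne (by simp)] at this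
      omega
    · intro h v hv
      cases v with
      | nil => simp
      | cons c v =>
        rw [List.cons_prefix_cons] at hv
        rw [hv.1]
        have := h v hv.2
        rw [List.count_cons_self, List.count_cons_of_ne (by simp)]
        omega

lemma HIT_anti (b : Bool) (g : ℕ) : Antitone (fun n => HIT_p b n g) := by
  apply antitone_nat_of_succ_le
  intro n
  unfold HIT_p
  rw [E_append n 1]
  apply E_mono
  intro u _
  rw [← E_const 1 (I (∀ v, v <+: u → v.count b < v.count (!b) + g))]
  apply E_mono
  intro t _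
  apply I_mono
  intro h v hv
  exact h v (hv.trans (List.prefix_append _ _))

theorem t_HIT : S_HIT := by
  intro b G
  set L : ℕ → ℝ := fun g => ⨅ n, HIT_p b n g with hL
  have hbdd : ∀ g, BddBelow (Set.range (fun n => HIT_p b n g)) := by
    intro g
    refine ⟨0, ?_⟩
    rintro x ⟨n, rfl⟩
    exact E_I_nonneg _ _
  have hlim : ∀ g, Tendsto (fun n => HIT_p b n g) atTop (𝓝 (L g)) := fun g =>
    tendsto_atTop_ciInf (HIT_anti b g) (hbdd g)
  have hle : ∀ g, L g ≤ 1 := fun g =>
    (ciInf_le (hbdd g) 0).trans (E_I_le_one _ _)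
  have hge : ∀ g, 0 ≤ L g := fun g => le_ciInf (fun n => E_I_nonneg _ _)
  have h0 : L 0 = 0 := by
    have h1 := hlim 0
    have h2 : (fun n => HIT_p b n 0) = fun _ => (0 : ℝ) := by
      funext n
      exact HIT_zero b n
    rw [h2] at h1
    exact tendsto_nhds_unique h1 tendsto_const_nhds
  have hrec : ∀ g, L (g + 1) = (L g + L (g + 2)) / 2 := by
    intro g
    have h1 : Tendsto (fun n => HIT_p b (n + 1) (g + 1)) atTop (𝓝 (L (g + 1))) :=
      (hlim (g + 1)).comp (tendsto_add_atTop_nat 1)
    have h2 : Tendsto (fun n => (HIT_p b n g + HIT_p b n (g + 2)) / 2) atTop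
        (𝓝 ((L g + L (g + 2)) / 2)) := ((hlim g).add (hlim (g + 2))).div_const 2
    have h3 : (fun n => HIT_p b (n + 1) (g + 1)) =
        fun n => (HIT_p b n g + HIT_p b n (g + 2)) / 2 := by
      funext n
      exact HIT_rec b n g
    rw [h3] at h1
    exact tendsto_nhds_unique h1 h2
  have hlin : ∀ g : ℕ, L g = g * L 1 ∧ L (g + 1) = (g + 1 : ℕ) * L 1 := by
    intro g
    induction g with
    | zero =>
      refine ⟨?_, ?_⟩
      · rw [h0]
        simp
      · simp
    | succ g ih =>
      refine ⟨ih.2, ?_⟩
      have h1 := hrec g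
      rw [ih.2, ih.1] at h1
      have h2 : L (g + 1 + 1) = 2 * ((g + 1 : ℕ) * L 1) - g * L 1 := by
        have h3 : L (g + 1 + 1) = L (g + 2) := rfl
        rw [h3]
        linarith
      rw [h2]
      push_cast
      ring
  have hL1 : L 1 = 0 := by
    by_contra hne
    have hpos : 0 < L 1 := lt_of_le_of_ne (hge 1) (Ne.symm hne)
    obtain ⟨n, hn⟩ := exists_nat_gt (1 / L 1)
    have h1 := (hlin n).1
    have h2 := hle n
    rw [h1] at h2
    rw [div_lt_iff₀ hpos] at hn
    linarith
  have hG : L G = 0 := by
    rw [(hlin G).1, hL1, mul_zero]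
  have h1 := hlim G
  rw [hG] at h1
  have h2 : ∀ᶠ n in atTop, HIT_p b n G < 1 / 8 := h1.eventually (gt_mem_nhds (by norm_num))
  obtain ⟨J, hJ⟩ := h2.exists
  exact ⟨J, hJ.le⟩

end Pool.Agent.AA
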