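import Pool.Agent.AA.St

/-!
# Module LAP: the drift of the fourth power of the length
-/

namespace Pool.Agent.AA

open Pool.Agent.MP7725

lemma LAP_gain (n k r : ℕ) (h : k ≤ 2 * r) :
    hh n r ≤ hh n ((r : ℝ) + 200) - 100 * (k : ℝ) ^ 3 := by
  have h1 : (k : ℝ) ≤ 2 * r := by exact_mod_cast h
  have hk : (0 : ℝ) ≤ k := Nat.cast_nonneg k
  have hr : (0 : ℝ) ≤ r := Nat.cast_nonneg r
  have hn : (0 : ℝ) ≤ n := Nat.cast_nonneg n
  have h2 : (k : ℝ) ^ 3 ≤ (2 * r) ^ 3 := by gcongr
  have h3 : (k : ℝ) ^ 3 ≤ 8 * (r : ℝ) ^ 3 := by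
    have : (2 * (r : ℝ)) ^ 3 = 8 * (r : ℝ) ^ 3 := by ring
    linarith
  unfold hh
  have h4 : ((r : ℝ) + 200) ^ 4 = (r : ℝ) ^ 4 + 800 * (r : ℝ) ^ 3 + 240000 * (r : ℝ) ^ 2 +
      32000000 * (r : ℝ) + 1600000000 := by ring
  have h5 : 6 * (n : ℝ) * ((r : ℝ) + 200) ^ 2 = 6 * n * (r : ℝ) ^ 2 + 2400 * (n * r) +
      240000 * n := by ring
  rw [h4, h5]
  have h6 : (0 : ℝ) ≤ n * r := mul_nonneg hn hr
  have h7 : (0 : ℝ) ≤ (r : ℝ) ^ 2 := by positivity
  linarith

lemma LAP_hh (n : ℕ) (p : List Bool) :
    (hh n (st p true).length + hh n (st p false).length) / 2 = hh (n + 1) p.length := by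
  rw [← E_gr (n + 1) p, E_succ, ← E_gr n, ← E_gr n]
  rfl

lemma LAP_switch (q : List Bool) (hq : R2 q) (n : ℕ) : ∀ v : List Bool,
    ∃ F : List Bool → List Bool,
      (∀ w, w.length = n → Que q (v ++ w) (F w) ∧ R2 (F w)) ∧
      E n (fun w => ((F w).length : ℝ) ^ 4) ≤ hh n (gr q v).length -
        100 * (q.length : ℝ) ^ 3 * E n (fun w => I (∃ v', v' <+: w ∧ Suc 100 q (v ++ v'))) := by
  have hk3 : (0 : ℝ) ≤ 100 * (q.length : ℝ) ^ 3 := by positivity
  induction n with
  | zero =>
    intro v
    by_cases hs : Suc 100 q v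
    · obtain ⟨r, h1, h2, h3, h4⟩ := hs
      refine ⟨fun w => gr r w, fun w _ => ⟨h1.trans (que_gr r w), r2_gr h2 w⟩, ?_⟩
      rw [E_gr, ← h3]
      push_cast
      have h5 := LAP_gain 0 q.length r.length h4
      have h6 := E_I_le_one 0 (fun w => ∃ v', v' <+: w ∧ Suc 100 q (v ++ v'))
      have h7 := mul_le_mul_of_nonneg_left h6 hk3
      linarith
    · refine ⟨fun _ => gr q v, ?_, ?_⟩
      · intro w hw
        have : w = [] := List.length_eq_zero_iff.mp hw
        subst this
        rw [List.append_nil]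
        exact ⟨que_gr q v, r2_gr hq v⟩
      · rw [E_zero, E_zero, I_of_not]
        · unfold hh
          push_cast
          linarith
        · rintro ⟨v', h1, h2⟩
          rw [List.prefix_nil.mp h1, List.append_nil] at h2
          exact hs h2
  | succ n ih =>
    intro v
    by_cases hs : Suc 100 q v
    · obtain ⟨r, h1, h2, h3, h4⟩ := hs
      refine ⟨fun w => gr r w, fun w _ => ⟨h1.trans (que_gr r w), r2_gr h2 w⟩, ?_⟩
      rw [E_gr, ← h3]
      have h5 := LAP_gain (n + 1) q.length r.length h4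
      have h6 := E_I_le_one (n + 1) (fun w => ∃ v', v' <+: w ∧ Suc 100 q (v ++ v'))
      have h7 := mul_le_mul_of_nonneg_left h6 hk3
      have h8 : ((r.length + 2 * 100 : ℕ) : ℝ) = (r.length : ℝ) + 200 := by
        push_cast
        norm_num
      rw [h8]
      linarith
    · obtain ⟨F₁, a1, a2⟩ := ih (v ++ [true])
      obtain ⟨F₂, b1, b2⟩ := ih (v ++ [false])
      refine ⟨fun w => match w with
        | [] => []
        | true :: w => F₁ w
        | false :: w => F₂ w, ?_, ?_⟩
      · intro w hw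
        match w, hw with
        | true :: w, hw =>
          have := a1 w (by simpa using hw)
          rw [List.append_assoc] at this
          exact this
        | false :: w, hw =>
          have := b1 w (by simpa using hw)
          rw [List.append_assoc] at this
          exact this
      · rw [E_succ, E_succ]
        simp only
        have hg1 : gr q (v ++ [true]) = st (gr q v) true := by rw [gr_append]; rfl
        have hg2 : gr q (v ++ [false]) = st (gr q v) false := by rw [gr_append]; rfl
        rw [hg1] at a2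
        rw [hg2] at b2
        have h1 := LAP_hh n (gr q v)
        have ev : ∀ a : Bool, E n (fun w => I (∃ v', v' <+: a :: w ∧ Suc 100 q (v ++ v'))) ≤
            E n (fun w => I (∃ v', v' <+: w ∧ Suc 100 q (v ++ [a] ++ v'))) := by
          intro a
          apply E_I_mono
          rintro w _ ⟨v', h2, h3⟩
          cases v' with
          | nil =>
            rw [List.append_nil] at h3
            exact absurd h3 hs
          | cons c v' =>
            rw [List.cons_prefix_cons] at h2
            refine ⟨v', h2.2, ?_⟩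
            rw [h2.1] at h3
            rw [List.append_assoc]
            exact h3
        have e1 := mul_le_mul_of_nonneg_left (ev true) hk3
        have e2 := mul_le_mul_of_nonneg_left (ev false) hk3
        linarith

theorem t_LAP : M_LAP := by
  rintro ⟨K₀, hK⟩
  refine ⟨max K₀ 192, ?_⟩
  intro q hq hk
  have hk1 : K₀ ≤ q.length := le_trans (le_max_left _ _) hk
  have hk2 : 192 ≤ q.length := le_trans (le_max_right _ _) hk
  obtain ⟨F, h1, h2⟩ := LAP_switch q hq (8 * q.length) []
  refine ⟨F, fun w hw => by simpa using h1 w hw, ?_⟩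
  have h3 := hK q hq hk1
  simp only [List.nil_append] at h2
  rw [gr_nil] at h2
  have hkR : (192 : ℝ) ≤ q.length := by exact_mod_cast hk2
  have hk3 : (0 : ℝ) ≤ 100 * (q.length : ℝ) ^ 3 := by positivity
  have h4 := mul_le_mul_of_nonneg_left h3 hk3
  unfold hh at h2
  push_cast at h2
  set k : ℝ := (q.length : ℝ) with hkdef
  have h5 : 6 * (8 * k) * k ^ 2 = 48 * k ^ 3 := by ring
  have h6 : 3 * (8 * k) ^ 2 = 192 * k ^ 2 := by ring
  have h7 : 192 * k ^ 2 ≤ k ^ 3 := by
    have : (0 : ℝ) ≤ k ^ 2 := by positivity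
    have h8 : k ^ 3 = k * k ^ 2 := by ring
    rw [h8]
    exact mul_le_mul_of_nonneg_right hkR this
  rw [h5, h6] at h2
  linarith

end Pool.Agent.AA
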