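import Pool.Agent.AA.St

/-!
# Module MAT: a common place for a block
-/

namespace Pool.Agent.AA

open Pool.Agent.MP7725

lemma MAT_succ (b : Bool) (n : ℕ) (f : List Bool → ℝ) :
    E (n + 1) f = (E n (fun w => f (b :: w)) + E n (fun w => f ((!b) :: w))) / 2 := by
  rw [E_succ]
  cases b
  · rw [Bool.not_false, add_comm]
  · rw [Bool.not_true]

/-- the first letter `!b` -/
lemma MAT_peel (b : Bool) (m : ℕ) : ∀ (p : ℕ) (f : List Bool → ℝ), (∀ w, f w ≤ 1) →
    E (p + m) f ≤ ∑ i ∈ Finset.range m, (1 / 2 : ℝ) ^ (i + 1) *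
      E (p + (m - 1 - i)) (fun u => f (List.replicate i b ++ (!b) :: u)) + (1 / 2 : ℝ) ^ m := by
  induction m with
  | zero =>
    intro p f hf
    simp only [Finset.range_zero, Finset.sum_empty, pow_zero, zero_add]
    rw [← E_const (p + 0) 1]
    exact E_mono (fun w _ => hf w)
  | succ m ih =>
    intro p f hf
    have h1 := ih p (fun w => f (b :: w)) (fun w => hf _)
    rw [← add_assoc, MAT_succ b, Finset.sum_range_succ']
    have h2 : ∑ i ∈ Finset.range m, (1 / 2 : ℝ) ^ (i + 1 + 1) *
        E (p + (m + 1 - 1 - (i + 1)))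
          (fun u => f (List.replicate (i + 1) b ++ (!b) :: u)) =
        (1 / 2) * ∑ i ∈ Finset.range m, (1 / 2 : ℝ) ^ (i + 1) *
          E (p + (m - 1 - i)) (fun u => f (b :: (List.replicate i b ++ (!b) :: u))) := by
      rw [Finset.mul_sum]
      apply Finset.sum_congr rfl
      intro i _
      have : p + (m + 1 - 1 - (i + 1)) = p + (m - 1 - i) := by omega
      rw [this, pow_succ]
      simp only [List.replicate_succ, List.cons_append]
      ring
    rw [h2]
    have h3 : p + (m + 1 - 1 - 0) = p + m := by omega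
    rw [h3]
    have h4 : (1 / 2 : ℝ) ^ (m + 1) = (1 / 2) ^ m * (1 / 2) := pow_succ _ _
    rw [h4]
    simp only [List.replicate_zero, List.nil_append, zero_add, pow_one]
    linarith

/-- functions which decrease when the word is prolonged -/
lemma MAT_anti {f : List Bool → ℝ} (hf : ∀ u t, f (u ++ t) ≤ f u) (p q : ℕ) :
    E (p + q) f ≤ E p f := by
  rw [E_append]
  apply E_mono
  intro u _
  rw [← E_const q (f u)]
  exact E_mono (fun t _ => hf u t)

lemma MAT_geom (m : ℕ) : ∑ i ∈ Finset.range m, (1 / 2 : ℝ) ^ (i + 1) = 1 - (1 / 2) ^ m := by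
  induction m with
  | zero => simp
  | succ m ih =>
    rw [Finset.sum_range_succ, ih, pow_succ]
    ring

lemma Mt_mono {b : Bool} {J : ℕ} {u v u' v' : List Bool} (hu : u <+: u') (hv : v <+: v')
    (h : Mt b J u v) : Mt b J u' v' := by
  obtain ⟨s, s', h1, h2, h3⟩ := h
  exact ⟨s, s', h1.trans hu, h2.trans hv, h3⟩

lemma Mt_cons {b : Bool} {J i i' : ℕ} {u v : List Bool} (h : Mt b J u v) :
    Mt b J (List.replicate i b ++ (!b) :: u) (List.replicate i' b ++ (!b) :: v) := by
  obtain ⟨s, s', ⟨t, h1⟩, ⟨t', h2⟩, h3⟩ := h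
  refine ⟨List.replicate i b ++ (!b) :: s, List.replicate i' b ++ (!b) :: s', ⟨t, ?_⟩,
    ⟨t', ?_⟩, ?_⟩
  · rw [← h1]; simp
  · rw [← h2]; simp
  · have e : ∀ i, List.count (!b) (List.replicate i b) = 0 := by
      intro i
      rw [List.count_replicate]
      simp
    rw [List.count_append, List.count_append, e, e, List.count_cons_self, List.count_cons_self, h3]

lemma Mt_block {b : Bool} {J : ℕ} (u v : List Bool) :
    Mt b J (List.replicate J b ++ u) (List.replicate J b ++ v) :=
  ⟨[], [], by simp, by simp, rfl⟩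

/-- the probability that there is no match -/
noncomputable def MAT_g (b : Bool) (J n : ℕ) : ℝ :=
  E n (fun u => E n (fun v => I (¬ Mt b J u v)))

lemma MAT_rec (b : Bool) (J p m : ℕ) (hm : J < m) :
    MAT_g b J (p + m) ≤ (1 - ((1 / 2 : ℝ) ^ (J + 1)) ^ 2) * MAT_g b J p + 2 * (1 / 2) ^ m := by
  set ε : ℝ := (1 / 2) ^ m with hε
  set a : ℕ → ℝ := fun i => (1 / 2 : ℝ) ^ (i + 1) with ha
  have ha0 : ∀ i, 0 ≤ a i := fun i => by rw [ha]; positivity
  have hsum : ∑ i ∈ Finset.range m, a i ≤ 1 := by
    rw [ha]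
    simp only
    rw [MAT_geom]
    have : (0 : ℝ) ≤ (1 / 2) ^ m := by positivity
    linarith
  have hε0 : 0 ≤ ε := by positivity
  set W : ℕ → ℝ := fun i => if i = J then 1 - a J else 1 with hW
  have haJ : a J ≤ 1 := by
    rw [ha]
    exact pow_le_one₀ (by norm_num) (by norm_num)
  have hW0 : ∀ i, 0 ≤ W i := by
    intro i
    rw [hW]
    simp only
    split_ifs
    · linarith
    · exact zero_le_one
  -- the inner average
  have inner : ∀ (i : ℕ) (u : List Bool),
      E (p + m) (fun v => I (¬ Mt b J (List.replicate i b ++ (!b) :: u) v)) ≤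
        W i * E p (fun v => I (¬ Mt b J u v)) + ε := by
    intro i u
    have h1 := MAT_peel b m p (fun v => I (¬ Mt b J (List.replicate i b ++ (!b) :: u) v))
      (fun w => I_le_one _)
    refine h1.trans ?_
    gcongr
    set Q : ℝ := E p (fun v => I (¬ Mt b J u v)) with hQ
    have hQ0 : 0 ≤ Q := E_I_nonneg _ _
    have term : ∀ i' ∈ Finset.range m, a i' * E (p + (m - 1 - i')) (fun v =>
        I (¬ Mt b J (List.replicate i b ++ (!b) :: u) (List.replicate i' b ++ (!b) :: v))) ≤
        (a i' - if i = J ∧ i' = J then a J else 0) * Q := by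
      intro i' _
      by_cases hJ : i = J ∧ i' = J
      · rw [if_pos hJ, hJ.2, sub_self, zero_mul]
        have : ∀ v, I (¬ Mt b J (List.replicate i b ++ (!b) :: u)
            (List.replicate J b ++ (!b) :: v)) = 0 := by
          intro v
          apply I_of_not
          rw [not_not, hJ.1]
          exact Mt_block _ _
        simp only [this, E_const, mul_zero, le_refl]
      · rw [if_neg hJ, sub_zero]
        apply mul_le_mul_of_nonneg_left _ (ha0 i')
        refine le_trans (E_I_mono (Q := fun v => ¬ Mt b J u v) ?_) ?_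
        · intro v _ h h'
          exact h (Mt_cons h')
        · exact MAT_anti (fun v t => I_mono (fun h h' =>
            h (Mt_mono (List.prefix_refl _) (List.prefix_append _ _) h'))) _ _
    refine (Finset.sum_le_sum term).trans ?_
    rw [← Finset.sum_mul, Finset.sum_sub_distrib]
    apply mul_le_mul_of_nonneg_right _ hQ0
    by_cases hi : i = J
    · have : ∑ i' ∈ Finset.range m, (if i = J ∧ i' = J then a J else 0) = a J := by
        rw [Finset.sum_eq_single J]
        · rw [if_pos ⟨hi, rfl⟩]
        · intro i' _ h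
          rw [if_neg (fun h' => h h'.2)]
        · intro h
          exact absurd (Finset.mem_range.mpr hm) h
      rw [this]
      have h2 : W i = 1 - a J := by
        rw [hW]
        simp only
        rw [if_pos hi]
      rw [h2]
      linarith
    · have : ∑ i' ∈ Finset.range m, (if i = J ∧ i' = J then a J else 0) = 0 := by
        apply Finset.sum_eq_zero
        intro i' _
        rw [if_neg (fun h' => hi h'.1)]
      rw [this]
      have h2 : W i = 1 := by
        rw [hW]
        simp only
        rw [if_neg hi]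
      rw [h2]
      linarith
  -- the outer average
  set g : ℝ := MAT_g b J p with hg
  have hg0 : 0 ≤ g := E_nonneg (fun w _ => E_I_nonneg _ _)
  have h1 := MAT_peel b m p (fun u => E (p + m) (fun v => I (¬ Mt b J u v)))
    (fun w => E_I_le_one _ _)
  have h2 : MAT_g b J (p + m) ≤ ∑ i ∈ Finset.range m, a i *
      E (p + (m - 1 - i)) (fun u => E (p + m)
        (fun v => I (¬ Mt b J (List.replicate i b ++ (!b) :: u) v))) + ε := h1
  refine h2.trans ?_
  have h3 : ∀ i ∈ Finset.range m, a i *
      E (p + (m - 1 - i)) (fun u => E (p + m)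
        (fun v => I (¬ Mt b J (List.replicate i b ++ (!b) :: u) v))) ≤
      a i * (W i * g + ε) := by
    intro i _
    apply mul_le_mul_of_nonneg_left _ (ha0 i)
    refine (E_mono (fun u _ => inner i u)).trans ?_
    rw [E_add, E_mul, E_const]
    have hm2 := MAT_anti (f := fun u => E p (fun v => I (¬ Mt b J u v)))
      (fun u t => E_I_mono (fun v _ h h' =>
        h (Mt_mono (List.prefix_append _ _) (List.prefix_refl _) h'))) p (m - 1 - i)
    have hm3 := mul_le_mul_of_nonneg_left hm2 (hW0 i)
    have hm4 : g = E p (fun u => E p (fun v => I (¬ Mt b J u v))) := rfl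
    rw [hm4]
    linarith
  have h4 := Finset.sum_le_sum h3
  have h5 : ∑ i ∈ Finset.range m, a i * (W i * g + ε) =
      (∑ i ∈ Finset.range m, a i * W i) * g + (∑ i ∈ Finset.range m, a i) * ε := by
    rw [Finset.sum_mul, Finset.sum_mul, ← Finset.sum_add_distrib]
    apply Finset.sum_congr rfl
    intro i _
    ring
  have h6 : ∑ i ∈ Finset.range m, a i * W i ≤ 1 - a J ^ 2 := by
    have h7 : ∀ i, a i * W i = a i - if i = J then a J * a J else 0 := by
      intro i
      rw [hW]
      simp only
      split_ifs with h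
      · rw [h]; ring
      · ring
    simp only [h7]
    rw [Finset.sum_sub_distrib, Finset.sum_ite_eq' (Finset.range m) J,
      if_pos (Finset.mem_range.mpr hm)]
    nlinarith
  have h8 : (∑ i ∈ Finset.range m, a i * W i) * g ≤ (1 - a J ^ 2) * g :=
    mul_le_mul_of_nonneg_right h6 hg0
  have h9 : (∑ i ∈ Finset.range m, a i) * ε ≤ 1 * ε := mul_le_mul_of_nonneg_right hsum hε0
  have h10 : a J = (1 / 2 : ℝ) ^ (J + 1) := rfl
  rw [h5] at h4
  rw [← h10]
  linarith

theorem t_MAT : S_MAT := by
  intro b J
  set c : ℝ := ((1 / 2 : ℝ) ^ (J + 1)) ^ 2 with hc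
  have hc0 : 0 < c := by positivity
  have hc1 : c ≤ 1 := by
    rw [hc, ← pow_mul]
    exact pow_le_one₀ (by norm_num) (by norm_num)
  set m := 2 * J + 7 with hm
  have hε : 2 * (1 / 2 : ℝ) ^ m = c * (1 / 16) := by
    have h1 : m = (J + 1) * 2 + 5 := by omega
    rw [h1, pow_add, pow_mul]
    ring
  have key : ∀ r : ℕ, MAT_g b J (r * m) ≤ (1 - c) ^ r + 1 / 16 := by
    intro r
    induction r with
    | zero =>
      rw [pow_zero]
      have h1 : MAT_g b J (0 * m) ≤ 1 := by
        unfold MAT_g
        rw [← E_const (0 * m) 1]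
        exact E_mono (fun w _ => E_I_le_one _ _)
      linarith
    | succ r ih =>
      have h1 := MAT_rec b J (r * m) m (by omega)
      rw [← hc, hε] at h1
      rw [Nat.succ_mul, pow_succ]
      have h2 : (1 - c) * MAT_g b J (r * m) ≤ (1 - c) * ((1 - c) ^ r + 1 / 16) :=
        mul_le_mul_of_nonneg_left ih (by linarith)
      linarith
  obtain ⟨r, hr⟩ := exists_pow_lt_of_lt_one (by norm_num : (0 : ℝ) < 1 / 16)
    (by linarith : 1 - c < 1)
  refine ⟨r * m, ?_⟩
  have := key r
  unfold MAT_g at this
  linarith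

end Pool.Agent.AA
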