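import Pool.Agent.AA.St

/-!
# Module PFX: stopping times
-/

namespace Pool.Agent.AA

open Pool.Agent.MP7725

theorem t_PFX : S_PFX := by
  intro L
  induction L with
  | zero =>
    intro T A c hc _ hA
    rw [E_zero]
    by_cases h : ∃ v u : List Bool, [] = v ++ u ∧ T v ∧ A v u
    · obtain ⟨v, u, h1, h2, h3⟩ := h
      have h4 := List.append_eq_nil_iff.mp h1.symm
      have h5 := hA v h2 (by rw [h4.1]; simp)
      rw [h4.1] at h5 h3
      have h6 : E (0 - ([] : List Bool).length) (fun u => I (A [] u)) = I (A [] []) := rfl
      rw [h6] at h5
      rw [h4.2] at h3
      rw [I_of h3] at h5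
      exact (I_le_one _).trans h5
    · rw [I_of_not h]
      exact hc
  | succ L ih =>
    intro T A c hc hT hA
    by_cases h0 : T []
    · have h1 := hA [] h0 (by simp)
      simp only [List.length_nil, Nat.sub_zero] at h1
      refine le_trans ?_ h1
      apply E_I_mono
      rintro w _ ⟨v, u, e, h2, h3⟩
      have h4 : [] = v := hT [] v h0 h2 List.nil_prefix
      subst h4
      rw [List.nil_append] at e
      rw [e]
      exact h3
    · have key : ∀ a : Bool, E L (fun w => I (∃ v u, a :: w = v ++ u ∧ T v ∧ A v u)) ≤ c := by
        intro a
        have h1 := ih (fun v => T (a :: v)) (fun v => A (a :: v)) c hc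
          (fun u v hu hv h => by
            have := hT (a :: u) (a :: v) hu hv ((List.cons_prefix_cons).mpr ⟨rfl, h⟩)
            exact (List.cons.inj this).2)
          (fun v hv hl => by
            have := hA (a :: v) hv (by simp only [List.length_cons]; omega)
            have e : L + 1 - (a :: v).length = L - v.length := by
              simp only [List.length_cons]
              omega
            rw [e] at this
            exact this)
        refine le_trans ?_ h1
        apply E_I_mono
        rintro w _ ⟨v, u, e, h2, h3⟩
        cases v with
        | nil => exact absurd h2 h0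
        | cons b v =>
          rw [List.cons_append] at e
          obtain ⟨e1, e2⟩ := List.cons.inj e
          subst e1
          exact ⟨v, u, e2, h2, h3⟩
      rw [E_succ]
      have h1 := key true
      have h2 := key false
      linarith

end Pool.Agent.AA
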