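import Pool.Agent.AA.St

/-!
# Module SUC: success has probability at least 1/2
-/

namespace Pool.Agent.AA

open Pool.Agent.MP7725

lemma SUC_take {n J : ℕ} (h : J ≤ n) (f : List Bool → ℝ) :
    E n (fun u => f (u.take J)) = E J f := by
  obtain ⟨m, rfl⟩ := Nat.exists_eq_add_of_le h
  rw [E_append]
  apply E_congr
  intro u hu
  rw [← E_const m (f u)]
  apply E_congr
  intro v _
  rw [← hu, List.take_left']
  rfl

lemma SUC_count_true_false (w : List Bool) : w.count true + w.count false = w.length := by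
  induction w with
  | nil => rfl
  | cons a w ih => cases a <;> simp <;> omega

lemma SUC_count_len (b : Bool) (w : List Bool) : w.count b + w.count (!b) = w.length := by
  have h := SUC_count_true_false w
  cases b
  · rw [Bool.not_false]; omega
  · rw [Bool.not_true]; omega

lemma SUC_pf (c : Bool) {p q w : List Bool} (hp : p ++ [c] <+: w) (hq : q ++ [c] <+: w)
    (h : (p ++ [c]).count c = (q ++ [c]).count c) : p ++ [c] = q ++ [c] := by
  have key : ∀ {p q : List Bool}, p ++ [c] <+: q ++ [c] →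
      (p ++ [c]).count c = (q ++ [c]).count c → p ++ [c] = q ++ [c] := by
    intro p q h1 h2
    obtain ⟨t, ht⟩ := h1
    rcases List.eq_nil_or_concat t with h0 | ⟨t', d, h0⟩
    · rw [h0, List.append_nil] at ht
      exact ht
    · rw [h0, List.concat_eq_append, ← List.append_assoc] at ht
      have h3 := List.append_inj' ht rfl
      have h4 : (q ++ [c]).count c = (p ++ [c]).count c + t'.count c + 1 := by
        rw [← h3.1]
        simp only [List.count_append, List.count_singleton_self]
      omega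
  rcases List.prefix_or_prefix_of_prefix hp hq with h1 | h1
  · exact key h1 h
  · exact (key h1 h.symm).symm

lemma SUC_ex (c : Bool) (w : List Bool) (x : ℕ) (hx : 1 ≤ x) (h : x ≤ w.count c) :
    ∃ p, p ++ [c] <+: w ∧ (p ++ [c]).count c = x := by
  induction w generalizing x with
  | nil => simp at h; omega
  | cons a w ih =>
    by_cases hac : a = c
    · subst hac
      by_cases hx1 : x = 1
      · exact ⟨[], by simp, by simp [hx1]⟩
      · obtain ⟨p, ⟨t, ht⟩, hp⟩ := ih (x - 1) (by omega) (by simp at h; omega)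
        refine ⟨a :: p, ⟨t, ?_⟩, ?_⟩
        · rw [← ht]; simp
        · rw [List.cons_append, List.count_cons_self, hp]; omega
    · obtain ⟨p, ⟨t, ht⟩, hp⟩ := ih x hx (by simpa [List.count_cons, hac] using h)
      refine ⟨a :: p, ⟨t, ?_⟩, ?_⟩
      · rw [← ht]; simp
      · rw [List.cons_append, List.count_cons_of_ne hac, hp]

/-- the end of phase 0 -/
def SUC_T0 (b : Bool) (x : ℕ) (v : List Bool) : Prop :=
  ∃ v0, v = v0 ++ [!b] ∧ (v0 ++ [!b]).count (!b) = x

/-- the end of phase 1 -/
def SUC_T1 (b : Bool) (x y : ℕ) (v : List Bool) : Prop :=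
  ∃ v0 v1, v = (v0 ++ [!b]) ++ (v1 ++ [b]) ∧ (v0 ++ [!b]).count (!b) = x ∧
    (v1 ++ [b]).count b = y + v0.count b

/-- the level is hit for the first time -/
def SUC_H (b : Bool) (G : ℕ) (s : List Bool) : Prop :=
  s.count b = s.count (!b) + G ∧ ∀ s', s' <+: s → s' ≠ s → s'.count b < s'.count (!b) + G

/-- the end of the crossing, after `v` and `u1` -/
def SUC_T3 (b : Bool) (G x y : ℕ) (v u1 m : List Bool) : Prop :=
  ∃ v' s2, v ++ u1 ++ m = v' ++ s2 ∧ SUC_T1 b x y v' ∧ SUC_H b G s2

lemma SUC_T0_pf (b : Bool) (x : ℕ) (u v : List Bool) (hu : SUC_T0 b x u) (hv : SUC_T0 b x v)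
    (h : u <+: v) : u = v := by
  obtain ⟨u0, rfl, hu⟩ := hu
  obtain ⟨v0, rfl, hv⟩ := hv
  exact SUC_pf (!b) h (List.prefix_refl _) (by rw [hu, hv])

lemma SUC_T1_pf' (b : Bool) (x y : ℕ) (u v w : List Bool) (hu : SUC_T1 b x y u)
    (hv : SUC_T1 b x y v) (h1 : u <+: w) (h2 : v <+: w) : u = v := by
  obtain ⟨u0, u1, rfl, hu, hu'⟩ := hu
  obtain ⟨v0, v1, rfl, hv, hv'⟩ := hv
  have h3 : u0 ++ [!b] = v0 ++ [!b] :=
    SUC_pf (!b) ((List.prefix_append _ _).trans h1) ((List.prefix_append _ _).trans h2)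
      (by rw [hu, hv])
  have h4 : u0 = v0 := (List.append_inj' h3 rfl).1
  subst h4
  obtain ⟨t, ht⟩ := h1
  obtain ⟨t', ht'⟩ := h2
  rw [← ht', List.append_assoc, List.append_assoc (u0 ++ [!b])] at ht
  have h5 := List.append_cancel_left ht
  have h6 : u1 ++ [b] = v1 ++ [b] :=
    SUC_pf b ⟨t, h5⟩ ⟨t', rfl⟩ (by rw [hu', hv'])
  rw [h6]

lemma SUC_T1_pf (b : Bool) (x y : ℕ) (u v : List Bool) (hu : SUC_T1 b x y u)
    (hv : SUC_T1 b x y v) (h : u <+: v) : u = v :=
  SUC_T1_pf' b x y u v v hu hv h (List.prefix_refl _)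

lemma SUC_T3_pf (b : Bool) (G x y : ℕ) (v u1 m m' : List Bool) (hm : SUC_T3 b G x y v u1 m)
    (hm' : SUC_T3 b G x y v u1 m') (h : m <+: m') : m = m' := by
  obtain ⟨p, s, e, hp, hs, -⟩ := hm
  obtain ⟨p', s', e', hp', -, hs'⟩ := hm'
  have h1 : v ++ u1 ++ m <+: v ++ u1 ++ m' := (List.prefix_append_right_inj _).mpr h
  have h2 : p = p' := by
    apply SUC_T1_pf' b x y p p' (v ++ u1 ++ m') hp hp'
    · refine List.IsPrefix.trans ?_ h1
      rw [e]
      exact List.prefix_append _ _
    · rw [e']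
      exact List.prefix_append _ _
  subst h2
  rw [e, e'] at h1
  have h3 : s <+: s' := (List.prefix_append_right_inj _).mp h1
  have h4 : s = s' := by
    by_contra hne
    have := hs' s h3 hne
    omega
  subst h4
  rw [← e'] at e
  exact List.append_cancel_left e

section Events

variable (b : Bool) (G J B x y k : ℕ)

/-- first event: a large deviation -/
def SUC_E1 (w : List Bool) : Prop :=
  ∃ v, v <+: w ∧ (k : ℝ) / 8 < |(v.count true : ℝ) - v.count false|

/-- second event: no hit -/
def SUC_A2 (_ u : List Bool) : Prop :=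
  J ≤ u.length ∧ ∀ v', v' <+: u.take J → v'.count b < v'.count (!b) + G

def SUC_E2 (w : List Bool) : Prop :=
  ∃ v u, w = v ++ u ∧ SUC_T1 b x y v ∧ SUC_A2 b G J v u

/-- third event: no match -/
def SUC_A3 (u1 _ r : List Bool) : Prop := B ≤ r.length ∧ ¬ Mt b J u1 (r.take B)

def SUC_A0 (v u : List Bool) : Prop :=
  ∃ u1 u', u = u1 ++ u' ∧ u1.length = B ∧
    ∃ m r, u' = m ++ r ∧ SUC_T3 b G x y v u1 m ∧ SUC_A3 b J B u1 m r

def SUC_E3 (w : List Bool) : Prop :=
  ∃ v u, w = v ++ u ∧ SUC_T0 b x v ∧ SUC_A0 b G J B x y v u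

lemma SUC_bound2 (hPFX : S_PFX) (L : ℕ)
    (hJ : E J (fun w => I (∀ v, v <+: w → v.count b < v.count (!b) + G)) ≤ 1 / 8) :
    E L (fun w => I (SUC_E2 b G J x y w)) ≤ 1 / 8 := by
  apply hPFX L (SUC_T1 b x y) (SUC_A2 b G J) (1 / 8) (by norm_num)
    (fun u v hu hv h => SUC_T1_pf b x y u v hu hv h)
  intro v _ _
  by_cases hn : J ≤ L - v.length
  · refine le_trans ?_ hJ
    rw [← SUC_take hn (fun w => I (∀ v, v <+: w → v.count b < v.count (!b) + G))]
    exact E_mono (fun w _ => I_mono (fun h => h.2))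
  · have : E (L - v.length) (fun u => I (SUC_A2 b G J v u)) ≤
        E (L - v.length) (fun _ => 0) := by
      apply E_mono
      intro w hw
      rw [I_of_not]
      intro h
      have := h.1
      omega
    rw [E_const] at this
    linarith

lemma SUC_bound3 (hPFX : S_PFX) (L : ℕ)
    (hB : E B (fun u => E B (fun v => I (¬ Mt b J u v))) ≤ 1 / 8) :
    E L (fun w => I (SUC_E3 b G J B x y w)) ≤ 1 / 8 := by
  apply hPFX L (SUC_T0 b x) (SUC_A0 b G J B x y) (1 / 8) (by norm_num)
    (fun u v hu hv h => SUC_T0_pf b x u v hu hv h)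
  intro v _ _
  by_cases hn : B ≤ L - v.length
  · obtain ⟨m, hm⟩ := Nat.exists_eq_add_of_le hn
    rw [hm, E_append]
    refine le_trans ?_ hB
    apply E_mono
    intro u1 hu1
    have h1 := hPFX m (SUC_T3 b G x y v u1) (SUC_A3 b J B u1)
      (E B (fun v => I (¬ Mt b J u1 v))) (E_I_nonneg _ _)
      (fun m m' hm hm' h => SUC_T3_pf b G x y v u1 m m' hm hm' h) (by
        intro p _ _
        by_cases hn' : B ≤ m - p.length
        · rw [← SUC_take hn' (fun v => I (¬ Mt b J u1 v))]
          exact E_mono (fun w _ => I_mono (fun h => h.2))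
        · have : E (m - p.length) (fun u => I (SUC_A3 b J B u1 p u)) ≤
              E (m - p.length) (fun _ => 0) := by
            apply E_mono
            intro w hw
            rw [I_of_not]
            intro h
            have := h.1
            omega
          rw [E_const] at this
          exact this.trans (E_I_nonneg _ _))
    refine le_trans ?_ h1
    apply E_mono
    intro u _
    apply I_mono
    rintro ⟨u1', u', e, h2, h3⟩
    have h4 := List.append_inj e (by rw [hu1, h2])
    rw [h4.1, h4.2]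
    exact h3
  · have : E (L - v.length) (fun u => I (SUC_A0 b G J B x y v u)) ≤
        E (L - v.length) (fun _ => 0) := by
      apply E_mono
      intro w hw
      rw [I_of_not]
      rintro ⟨u1, u', e, h2, -⟩
      rw [e, List.length_append] at hw
      omega
    rw [E_const] at this
    linarith

end Events

lemma SUC_dev {k : ℕ} {w : List Bool} (b : Bool) (h : ¬ SUC_E1 k w) {v : List Bool}
    (hv : v <+: w) : 8 * v.count b ≤ 8 * v.count (!b) + k ∧
      8 * v.count (!b) ≤ 8 * v.count b + k := by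
  have h1 : |(v.count true : ℝ) - v.count false| ≤ (k : ℝ) / 8 := by
    by_contra hcon
    exact h ⟨v, hv, lt_of_not_ge hcon⟩
  rw [abs_le] at h1
  have h2 : 8 * (v.count true : ℝ) ≤ 8 * v.count false + k := by linarith [h1.2]
  have h3 : 8 * (v.count false : ℝ) ≤ 8 * v.count true + k := by linarith [h1.1]
  have h2' : 8 * v.count true ≤ 8 * v.count false + k := by exact_mod_cast h2
  have h3' : 8 * v.count false ≤ 8 * v.count true + k := by exact_mod_cast h3
  cases b
  · exact ⟨h3', h2'⟩
  · exact ⟨h2', h3'⟩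

/-- the first hit -/
lemma SUC_hit (b : Bool) (G : ℕ) (hG : 0 < G) (n : ℕ) : ∀ v : List Bool, v.length = n →
    ¬ v.count b < v.count (!b) + G → ∃ s, s <+: v ∧ SUC_H b G s := by
  induction n using Nat.strong_induction_on with
  | _ n ih =>
    intro v hn hv
    by_cases hall : ∀ s', s' <+: v → s' ≠ v → s'.count b < s'.count (!b) + G
    · refine ⟨v, List.prefix_refl _, ?_, hall⟩
      rcases List.eq_nil_or_concat v with h0 | ⟨v', a, h0⟩
      · subst h0
        simp at hv
        omega
      · rw [List.concat_eq_append] at h0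
        subst h0
        have h1 := hall v' (List.prefix_append _ _) (by
          intro h
          have := congrArg List.length h
          simp at this)
        rcases Bool.eq_or_eq_not a b with ha | ha
        · subst ha
          rw [List.count_append, List.count_append] at hv ⊢
          have e1 : List.count a [a] = 1 := List.count_singleton_self
          have e2 : List.count (!a) [a] = 0 := by simp
          rw [e1, e2] at hv ⊢
          omega
        · subst ha
          exfalso
          rw [List.count_append, List.count_append] at hv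
          have e1 : List.count b [!b] = 0 := by simp
          rw [e1] at hv
          omega
    · push Not at hall
      obtain ⟨s', h1, h2, h3⟩ := hall
      have h4 : s'.length < n := by
        rw [← hn]
        exact lt_of_le_of_ne h1.length_le (fun h => h2 (h1.eq_of_length h))
      obtain ⟨s, h5, h6⟩ := ih s'.length h4 s' rfl (by omega)
      exact ⟨s, h5.trans h1, h6⟩

/-- the deterministic part -/
lemma SUC_det (hDET : S_DET) (b : Bool) (J B x y k : ℕ) (hx : 1 ≤ x) (hk : x + y = k)
    (hK : 8 * (J + B) + 8 ≤ k) (w : List Bool) (hw : w.length = 8 * k) (h1 : ¬ SUC_E1 k w)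
    (h2 : ¬ SUC_E2 b 100 J x y w) (h3 : ¬ SUC_E3 b 100 J B x y w) :
    ∃ v, v <+: w ∧ Suc 100 (List.replicate x (!b) ++ List.replicate y b) v := by
  have hc := SUC_count_len b w
  have hd := SUC_dev b h1 (List.prefix_refl w)
  -- phase 0
  obtain ⟨v0, ⟨w1, hw1⟩, hv0⟩ := SUC_ex (!b) w x hx (by omega)
  have hd0 := SUC_dev b h1 ⟨w1, hw1⟩
  have hcb0 : (v0 ++ [!b]).count b = v0.count b := by
    rw [List.count_append]
    simp
  rw [hcb0, hv0] at hd0
  have hcw : w.count b = v0.count b + w1.count b := by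
    rw [← hw1, List.count_append, hcb0]
  -- phase 1
  obtain ⟨v1, ⟨w2, hw2⟩, hv1⟩ := SUC_ex b w1 (y + v0.count b) (by omega) (by omega)
  have hpre1 : (v0 ++ [!b]) ++ (v1 ++ [b]) <+: w := ⟨w2, by rw [List.append_assoc, hw2, hw1]⟩
  have hd1 := SUC_dev b h1 hpre1
  have hcn1 : (v1 ++ [b]).count (!b) = v1.count (!b) := by
    rw [List.count_append]
    simp
  have ec1 : ((v0 ++ [!b]) ++ (v1 ++ [b])).count b = v0.count b + (y + v0.count b) := by
    rw [List.count_append, hcb0, hv1]
  have ec2 : ((v0 ++ [!b]) ++ (v1 ++ [b])).count (!b) = x + v1.count (!b) := by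
    rw [List.count_append, hv0, hcn1]
  rw [ec1, ec2] at hd1
  have hT1 : SUC_T1 b x y ((v0 ++ [!b]) ++ (v1 ++ [b])) := ⟨v0, v1, rfl, hv0, hv1⟩
  have hwe : w = ((v0 ++ [!b]) ++ (v1 ++ [b])) ++ w2 := by
    rw [List.append_assoc, hw2, hw1]
  have hl0 := SUC_count_len b (v0 ++ [!b])
  rw [hcb0, hv0] at hl0
  have hl1 := SUC_count_len b (v1 ++ [b])
  rw [hv1, hcn1] at hl1
  have hlw : (v0 ++ [!b]).length + (v1 ++ [b]).length + w2.length = 8 * k := by
    have h9 := congrArg List.length hwe
    rw [hw, List.length_append (as := (v0 ++ [!b]) ++ (v1 ++ [b])),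
      List.length_append (as := v0 ++ [!b]) (bs := v1 ++ [b])] at h9
    exact h9.symm
  -- the crossing
  have hJ : J ≤ w2.length := by omega
  obtain ⟨v', hv', hv''⟩ : ∃ v', v' <+: w2.take J ∧ ¬ v'.count b < v'.count (!b) + 100 := by
    by_contra hcon
    push Not at hcon
    exact h2 ⟨_, w2, hwe, hT1, hJ, hcon⟩
  obtain ⟨s2, hs2, hH⟩ := SUC_hit b 100 (by norm_num) v'.length v' rfl hv''
  have hs2J : s2 <+: w2.take J := hs2.trans hv'
  have hs2l : s2.length ≤ J := by
    have := hs2J.length_le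
    rw [List.length_take] at this
    omega
  obtain ⟨w3, hw3⟩ := hs2J.trans (List.take_prefix J w2)
  have hl2 : s2.length + w3.length = w2.length := by
    rw [← hw3, List.length_append]
  have hB3 : B ≤ w3.length := by omega
  -- the match
  have hB1 : B ≤ (v1 ++ [b]).length := by omega
  have hmt : Mt b J ((v1 ++ [b]).take B) (w3.take B) := by
    by_contra hcon
    apply h3
    refine ⟨v0 ++ [!b], w1, hw1.symm, ⟨v0, rfl, hv0⟩, (v1 ++ [b]).take B,
      (v1 ++ [b]).drop B ++ (s2 ++ w3), ?_, ?_, (v1 ++ [b]).drop B ++ s2, w3, ?_, ?_, hB3, hcon⟩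
    · rw [← List.append_assoc, List.take_append_drop, hw3, hw2]
    · rw [List.length_take]
      omega
    · rw [List.append_assoc]
    · refine ⟨(v0 ++ [!b]) ++ (v1 ++ [b]), s2, ?_, hT1, hH⟩
      rw [← List.append_assoc, List.append_assoc (v0 ++ [!b]), List.take_append_drop]
  obtain ⟨s, s', hs, hs', hcc⟩ := hmt
  obtain ⟨t, ht⟩ := hs.trans (List.take_prefix B (v1 ++ [b]))
  have hs'l : s'.length ≤ B := by
    have := hs'.length_le
    rw [List.length_append, List.length_take] at this
    omega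
  have hcs' : s'.count (!b) ≤ B := le_trans List.count_le_length hs'l
  have hcs2 : s2.count (!b) ≤ J := le_trans List.count_le_length hs2l
  have hcs2b : s2.count b ≤ J := le_trans List.count_le_length hs2l
  obtain ⟨r, hr1, hr2, hr3, hr4⟩ := hDET b 100 J x y v0 v1 s t s2 s' hv0 hv1 ht hH.1 hcs2b
    hcc.symm (by omega)
  refine ⟨v0 ++ [!b] ++ (v1 ++ [b]) ++ s2 ++ s' ++ List.replicate (s2.count b) b, ?_, r, hr1, hr2,
    hr3, ?_⟩
  · have h5 : s' ++ List.replicate (s2.count b) b <+: w3 := by
      refine List.IsPrefix.trans ?_ (hs'.trans (List.take_prefix B w3))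
      refine (List.prefix_append_right_inj _).mpr ?_
      refine ⟨List.replicate (J - s2.count b) b, ?_⟩
      rw [List.replicate_append_replicate]
      congr 1
      omega
    obtain ⟨z, hz⟩ := h5
    refine ⟨z, ?_⟩
    rw [hwe, ← hw3, ← hz]
    simp only [List.append_assoc]
  · rw [List.length_append, List.length_replicate, List.length_replicate]
    omega

theorem t_SUC : M_SUC := by
  intro hPFX hHIT hMAT hWAL hDET
  obtain ⟨J1, hJ1⟩ := hHIT true 100
  obtain ⟨J2, hJ2⟩ := hHIT false 100
  have hmonoJ : ∀ (b : Bool) (j n : ℕ), j ≤ n →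
      E j (fun w => I (∀ v, v <+: w → v.count b < v.count (!b) + 100)) ≤ 1 / 8 →
      E n (fun w => I (∀ v, v <+: w → v.count b < v.count (!b) + 100)) ≤ 1 / 8 := by
    intro b j n hjn h
    refine le_trans ?_ h
    rw [← SUC_take hjn (fun w => I (∀ v, v <+: w → v.count b < v.count (!b) + 100))]
    exact E_mono (fun w _ => I_mono (fun h v hv => h v (hv.trans (List.take_prefix _ _))))
  set J := max J1 J2 with hJdef
  obtain ⟨B1, hB1⟩ := hMAT true J
  obtain ⟨B2, hB2⟩ := hMAT false J
  have hmonoB : ∀ (b : Bool) (j n : ℕ), j ≤ n →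
      E j (fun u => E j (fun v => I (¬ Mt b J u v))) ≤ 1 / 8 →
      E n (fun u => E n (fun v => I (¬ Mt b J u v))) ≤ 1 / 8 := by
    intro b j n hjn h
    refine le_trans ?_ h
    rw [← SUC_take hjn (fun u => E j (fun v => I (¬ Mt b J u v)))]
    apply E_mono
    intro u _
    rw [← SUC_take hjn (fun v => I (¬ Mt b J (u.take j) v))]
    apply E_mono
    intro v _
    apply I_mono
    rintro h ⟨s, s', h1, h2, h3⟩
    exact h ⟨s, s', h1.trans (List.take_prefix _ _), h2.trans (List.take_prefix _ _), h3⟩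
  set B := max B1 B2 with hBdef
  have hJ : ∀ b : Bool, E J (fun w => I (∀ v, v <+: w → v.count b < v.count (!b) + 100)) ≤
      1 / 8 := by
    intro b
    cases b
    · exact hmonoJ false J2 J (le_max_right _ _) hJ2
    · exact hmonoJ true J1 J (le_max_left _ _) hJ1
  have hB : ∀ b : Bool, E B (fun u => E B (fun v => I (¬ Mt b J u v))) ≤ 1 / 8 := by
    intro b
    cases b
    · exact hmonoB false B2 B (le_max_right _ _) hB2
    · exact hmonoB true B1 B (le_max_left _ _) hB1
  refine ⟨8 * (J + B) + 8 + 10 ^ 8, ?_⟩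
  intro q hq hk
  -- normal form
  obtain ⟨b, x, y, hx, hqe⟩ : ∃ (b : Bool) (x y : ℕ), 1 ≤ x ∧
      q = List.replicate x (!b) ++ List.replicate y b := by
    obtain ⟨a, x, y, hqe⟩ := hq
    rcases Nat.eq_zero_or_pos x with h0 | h0
    · subst h0
      refine ⟨a, y, 0, ?_, by simpa using hqe⟩
      rw [hqe] at hk
      simp at hk
      omega
    · exact ⟨!a, x, y, h0, by simpa using hqe⟩
  have hlen : x + y = q.length := by
    rw [hqe, List.length_append, List.length_replicate, List.length_replicate]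
  set k := q.length with hkdef
  have hk0 : (10 : ℝ) ^ 8 ≤ k := by
    have : 10 ^ 8 ≤ k := by omega
    exact_mod_cast this
  have hkpos : (0 : ℝ) < k := by
    have : (0 : ℝ) < 10 ^ 8 := by norm_num
    linarith
  have e1 : E (8 * k) (fun w => I (SUC_E1 k w)) ≤ 1 / 8 := by
    refine le_trans (hWAL (8 * k) ((k : ℝ) / 8) (by positivity)) ?_
    push_cast
    rw [div_le_iff₀ (by positivity)]
    have : (3 : ℝ) * (8 * k + 1) * (8 * k) ^ 2 ≤ 1 / 8 * ((k : ℝ) / 8) ^ 4 := by
      have h9 : (8 : ℝ) * k + 1 ≤ 9 * k := by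
        have : (1 : ℝ) ≤ 10 ^ 8 := by norm_num
        linarith
      have hk3 : (0 : ℝ) ≤ (k : ℝ) ^ 3 := by positivity
      have h10 : (10 : ℝ) ^ 8 * (k : ℝ) ^ 3 ≤ (k : ℝ) ^ 4 := by
        rw [pow_succ (k : ℝ) 3, mul_comm]
        exact mul_le_mul_of_nonneg_left hk0 hk3
      have h11 : (8 * (k : ℝ) + 1) * (k : ℝ) ^ 2 ≤ 9 * k ^ 3 := by
        have := mul_le_mul_of_nonneg_right h9 (by positivity : (0 : ℝ) ≤ (k : ℝ) ^ 2)
        nlinarith
      nlinarith
    exact this
  have e2 := SUC_bound2 b 100 J x y hPFX (8 * k) (hJ b)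
  have e3 := SUC_bound3 b 100 J B x y hPFX (8 * k) (hB b)
  have e4 : (1 : ℝ) ≤ E (8 * k) (fun w => I (∃ v, v <+: w ∧ Suc 100 q v)) +
      (E (8 * k) (fun w => I (SUC_E1 k w)) + (E (8 * k) (fun w => I (SUC_E2 b 100 J x y w)) +
        E (8 * k) (fun w => I (SUC_E3 b 100 J B x y w)))) := by
    rw [← E_add, ← E_add, ← E_add]
    conv_lhs => rw [← E_const (8 * k) 1]
    apply E_mono
    intro w hw
    have i1 := I_nonneg (SUC_E1 k w)
    have i2 := I_nonneg (SUC_E2 b 100 J x y w)
    have i3 := I_nonneg (SUC_E3 b 100 J B x y w)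
    have i4 := I_nonneg (∃ v, v <+: w ∧ Suc 100 q v)
    by_cases h1 : SUC_E1 k w
    · rw [I_of h1]; linarith
    · by_cases h2 : SUC_E2 b 100 J x y w
      · rw [I_of h2]; linarith
      · by_cases h3 : SUC_E3 b 100 J B x y w
        · rw [I_of h3]; linarith
        · have h4 := SUC_det hDET b J B x y k hx hlen (by omega) w hw h1 h2 h3
          rw [← hqe] at h4
          rw [I_of h4]
          linarith
  linarith

end Pool.Agent.AA
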