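import Pool.Agent.AA.St

/-!
# Module UNI: the universal word
-/

namespace Pool.Agent.AA

open Pool.Agent.MP7725

lemma UNI_r2_even {r : List Bool} (h2 : R2 r) (he : EvenWord r) : Que [] r [] := by
  obtain ⟨a, x, y, rfl⟩ := h2
  have h1 := he a
  have h3 := he (!a)
  rw [List.count_append, List.count_replicate_self, List.count_replicate,
    if_neg (by simp), add_zero] at h1
  rw [List.count_append, List.count_replicate_self, List.count_replicate,
    if_neg (by simp), zero_add] at h3
  obtain ⟨m, hm⟩ := h1
  obtain ⟨n, hn⟩ := h3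
  have e1 : x = 2 * m := by omega
  have e2 : y = 2 * n := by omega
  rw [e1, e2]
  exact (que_even a m).trans (que_even (!a) n)

lemma UNI_even_of {q w r : List Bool} (h : Que q w r) (hq : EvenWord q) (hw : EvenWord w) :
    EvenWord r := by
  intro b
  have h1 := que_even_count h b
  have h2 := hq b
  have h3 := hw b
  obtain ⟨x, hx⟩ := h1
  obtain ⟨y, hy⟩ := h2
  obtain ⟨z, hz⟩ := h3
  exact ⟨x - y - z, by omega⟩

lemma UNI_one (p : List Bool) (hp : EvenWord p) : ∃ v, Que p v [] ∧ Que [] v [] := by
  set r := gr [] p with hr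
  have h1 : Que [] p r := que_gr [] p
  have hnil : EvenWord [] := fun b => by simp
  have h2 : EvenWord r := UNI_even_of h1 hnil hp
  have h3 : Que [] r [] := UNI_r2_even (r2_gr r2_nil p) h2
  exact ⟨p ++ r, (Que.pop p).trans h3, h1.trans (Que.pop r)⟩

lemma UNI_list (l : List (List Bool)) (hl : ∀ q ∈ l, EvenWord q) :
    ∃ u, (∀ q ∈ l, Que q u []) ∧ Que [] u [] := by
  induction l with
  | nil => exact ⟨[], by simp, que_refl []⟩
  | cons q l ih =>
    obtain ⟨u, h1, h2⟩ := ih (fun q hq => hl q (List.mem_cons_of_mem _ hq))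
    have hu : EvenWord u := by
      intro b
      have := que_even_count h2 b
      simpa using this
    have hp : EvenWord (gr q u) := UNI_even_of (que_gr q u) (hl q List.mem_cons_self) hu
    obtain ⟨v, h3, h4⟩ := UNI_one (gr q u) hp
    refine ⟨u ++ v, ?_, h2.trans h4⟩
    intro q' hq'
    rcases List.mem_cons.mp hq' with h5 | h5
    · rw [h5]
      exact (que_gr q u).trans h3
    · exact (h1 q' h5).trans h4

theorem t_UNI : S_UNI := by
  intro K
  have hfin : {q : List Bool | q.length ≤ K}.Finite := List.finite_length_le Bool K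
  have hfin2 : {q : List Bool | EvenWord q ∧ q.length ≤ K}.Finite :=
    hfin.subset (fun q hq => hq.2)
  obtain ⟨u, h1, -⟩ := UNI_list hfin2.toFinset.toList (fun q hq => by
    rw [Finset.mem_toList, Set.Finite.mem_toFinset] at hq
    exact hq.1)
  refine ⟨u, fun q hq hK => h1 q ?_⟩
  rw [Finset.mem_toList, Set.Finite.mem_toFinset]
  exact ⟨hq, hK⟩

end Pool.Agent.AA
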