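import Pool.Agent.AA.St

/-!
# Module WAL: deviations of the walk
-/

namespace Pool.Agent.AA

open Pool.Agent.MP7725

lemma WAL_take {n t : ℕ} (h : t ≤ n) (f : List Bool → ℝ) :
    E n (fun u => f (u.take t)) = E t f := by
  obtain ⟨m, rfl⟩ := Nat.exists_eq_add_of_le h
  rw [E_append]
  apply E_congr
  intro u hu
  rw [← E_const m (f u)]
  apply E_congr
  intro v _
  rw [← hu, List.take_left']
  rfl

lemma WAL_moment (n : ℕ) : ∀ c : ℝ,
    E n (fun w => (c + (w.count true : ℝ) - w.count false) ^ 4) = hh n c := by
  induction n with
  | zero =>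
    intro c
    rw [E_zero]
    unfold hh
    simp
  | succ n ih =>
    intro c
    rw [E_succ]
    have h1 : ∀ w : List Bool, (c + ((true :: w).count true : ℝ) - (true :: w).count false) ^ 4 =
        ((c + 1) + (w.count true : ℝ) - w.count false) ^ 4 := by
      intro w
      rw [List.count_cons_self, List.count_cons_of_ne (by simp)]
      push_cast
      ring
    have h2 : ∀ w : List Bool, (c + ((false :: w).count true : ℝ) - (false :: w).count false) ^ 4 =
        ((c - 1) + (w.count true : ℝ) - w.count false) ^ 4 := by
      intro w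
      rw [List.count_cons_self, List.count_cons_of_ne (by simp)]
      push_cast
      ring
    simp only [h1, h2]
    rw [ih, ih]
    unfold hh
    push_cast
    ring

theorem t_WAL : S_WAL := by
  intro n c hc
  have hc4 : 0 < c ^ 4 := by positivity
  have hn0 : (0 : ℝ) ≤ n := Nat.cast_nonneg n
  set W : List Bool → ℝ := fun w => (w.count true : ℝ) - w.count false with hW
  have h1 : E n (fun w => I (∃ v, v <+: w ∧ c < |(v.count true : ℝ) - v.count false|)) ≤
      E n (fun w => ∑ t ∈ Finset.range (n + 1), I (c < |W (w.take t)|)) := by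
    apply E_mono
    intro w hw
    by_cases h : ∃ v, v <+: w ∧ c < |(v.count true : ℝ) - v.count false|
    · rw [I_of h]
      obtain ⟨v, hv1, hv2⟩ := h
      have h2 : v = w.take v.length := List.prefix_iff_eq_take.mp hv1
      have h3 : v.length ∈ Finset.range (n + 1) := by
        rw [Finset.mem_range]
        have := hv1.length_le
        omega
      have h4 : I (c < |W (w.take v.length)|) = 1 := by
        apply I_of
        rw [← h2]
        exact hv2
      rw [← h4]
      exact Finset.single_le_sum (f := fun t => I (c < |W (w.take t)|))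
        (fun t _ => I_nonneg _) h3
    · rw [I_of_not h]
      exact Finset.sum_nonneg (fun t _ => I_nonneg _)
  refine h1.trans ?_
  rw [E_sum]
  have h2 : ∀ t ∈ Finset.range (n + 1), E n (fun w => I (c < |W (w.take t)|)) ≤
      3 * (n : ℝ) ^ 2 / c ^ 4 := by
    intro t ht
    have htn : t ≤ n := by
      rw [Finset.mem_range] at ht
      omega
    rw [WAL_take htn (fun v => I (c < |W v|))]
    have h3 : E t (fun v => I (c < |W v|)) ≤ E t (fun v => (1 / c ^ 4) * (0 + (v.count true : ℝ) -
        v.count false) ^ 4) := by
      apply E_mono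
      intro v _
      have e : (0 + (v.count true : ℝ) - v.count false) ^ 4 = |W v| ^ 4 := by
        rw [zero_add]
        exact (Even.pow_abs (by decide) (W v)).symm
      rw [e]
      by_cases h : c < |W v|
      · rw [I_of h]
        have h4 : c ^ 4 ≤ |W v| ^ 4 := by gcongr
        rw [one_div, ← div_eq_inv_mul, le_div_iff₀ hc4, one_mul]
        exact h4
      · rw [I_of_not h]
        positivity
    rw [E_mul, WAL_moment] at h3
    refine h3.trans ?_
    rw [one_div, ← div_eq_inv_mul]
    apply div_le_div_of_nonneg_right _ hc4.le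
    unfold hh
    have h5 : (t : ℝ) ≤ n := by exact_mod_cast htn
    have h6 : (0 : ℝ) ≤ t := Nat.cast_nonneg t
    have h7 : (t : ℝ) ^ 2 ≤ (n : ℝ) ^ 2 := by gcongr
    nlinarith
  refine (Finset.sum_le_sum h2).trans ?_
  rw [Finset.sum_const, Finset.card_range, nsmul_eq_mul]
  push_cast
  apply le_of_eq
  ring

end Pool.Agent.AA
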