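import Pool.Agent.AA.FD
import Pool.Agent.AA.DET
import Pool.Agent.AA.UNI
import Pool.Agent.AA.BAD
import Pool.Agent.AA.LAP
import Pool.Agent.AA.SUC
import Pool.Agent.AA.PFX
import Pool.Agent.AA.HIT
import Pool.Agent.AA.MAT
import Pool.Agent.AA.WAL
import Pool.Agent.AA.FA
import Pool.Agent.AA.FB
import Pool.Agent.AA.FC

/-!
# Assembly: almost all even binary words are shuffle squares (MP_7725c6_co, helper49)
-/

namespace Pool.Agent.AA

open Pool.Agent.MP7725 Filter Topology

/-- the probability that a word of length `n` is even but is not a shuffle square tends to `0` -/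
theorem fd_all : S_FD :=
  t_FD t_UNI (t_BAD (t_LAP (t_SUC t_PFX t_HIT t_MAT t_WAL t_DET))) t_FA t_FB t_FC

lemma subword_count (a : Bool) (W : List Bool) (s : Fin W.length → Bool) :
    (subword W s).count a + (subword W (fun i => !(s i))).count a = W.count a := by
  induction W with
  | nil => simp [subword]
  | cons b l ih =>
    rw [subword_cons, subword_cons]
    have h := ih (fun i => s i.succ)
    cases h0 : s 0
    · simp only [Bool.false_eq_true, if_false, Bool.not_false, if_true, List.count_cons]
      omega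
    · simp only [Bool.false_eq_true, if_false, Bool.not_true, if_true, List.count_cons]
      omega

/-- every shuffle square is even -/
lemma even_of_square {W : List Bool} (h : IsShuffleSquare W) : EvenWord W := by
  obtain ⟨s, hs⟩ := h
  intro a
  have h1 := subword_count a W s
  rw [← hs] at h1
  exact ⟨(subword W s).count a, h1.symm⟩

/-- `c(W) = 0` means that `W` is a shuffle square -/
lemma cutsSuffice_zero (W : List Bool) : CutsSuffice W 0 ↔ IsShuffleSquare W := by
  constructor
  · rintro ⟨B, B', h1, h2, h3, h4⟩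
    obtain ⟨X, rfl⟩ := List.length_eq_one_iff.mp h1
    have h5 : B' = [X] := List.perm_singleton.mp h3
    rw [h5] at h4
    rw [← h2]
    exact h4
  · intro h
    exact ⟨[W], [W], rfl, by simp, List.Perm.refl _, by simpa using h⟩

lemma evenWord_iff {W : List Bool} (h : Even W.length) : EvenWord W ↔ Even (W.count true) := by
  constructor
  · intro h1
    exact h1 true
  · intro h1 a
    have h2 : W.count true + W.count false = W.length := by
      have := List.count_not_add_count W true
      simp only [Bool.not_true] at this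
      omega
    cases a
    · rw [← h2] at h
      exact (Nat.even_add.mp h).mp h1
    · exact h1

lemma E_even (n : ℕ) : E (n + 1) (fun w => I (Even (w.count true))) = 1 / 2 := by
  rw [E_succ, ← E_add]
  have h : E n (fun w => I (Even ((true :: w).count true)) + I (Even ((false :: w).count true))) =
      E n (fun _ => (1 : ℝ)) := by
    apply E_congr
    intro w _
    have h1 : ((true :: w).count true) = w.count true + 1 := by simp
    have h2 : ((false :: w).count true) = w.count true := by simp
    rw [h1, h2]
    rcases Nat.even_or_odd (w.count true) with h3 | h3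
    · rw [I_of h3, I_of_not, zero_add]
      exact Nat.not_even_iff_odd.mpr h3.add_one
    · rw [I_of h3.add_one, I_of_not, add_zero]
      exact Nat.not_even_iff_odd.mpr h3
  rw [h, E_const]

/-- the words of length `n` with the property `P` -/
lemma ncard_eq (n : ℕ) (P : List Bool → Prop) :
    ({W : List Bool | W.length = n ∧ P W}.ncard : ℝ) = E n (fun w => I (P w)) * 2 ^ n := by
  classical
  rw [E_card n P]
  congr 1
  have h : {W : List Bool | W.length = n ∧ P W} =
      (fun v : List.Vector Bool n => v.toList) ''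
        (((Finset.univ.filter (fun v : List.Vector Bool n => P v.toList)) :
          Finset (List.Vector Bool n)) : Set (List.Vector Bool n)) := by
    ext W
    constructor
    · rintro ⟨h1, h2⟩
      exact ⟨⟨W, h1⟩, by simpa using h2, rfl⟩
    · rintro ⟨v, hv, rfl⟩
      simp only [Finset.coe_filter, Finset.mem_univ, true_and, Set.mem_setOf_eq] at hv
      exact ⟨v.toList_length, hv⟩
  rw [h, Set.ncard_image_of_injective _ (fun v w hvw => List.Vector.toList_injective hvw),
    Set.ncard_coe_finset]

/-- the number of even words -/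
lemma ncard_even (m : ℕ) (hm : 1 ≤ m) :
    {W : List Bool | W.length = 2 * m ∧ EvenWord W}.ncard = 2 ^ (2 * m - 1) := by
  have h1 := ncard_eq (2 * m) EvenWord
  have h2 : E (2 * m) (fun w => I (EvenWord w)) = 1 / 2 := by
    obtain ⟨k, rfl⟩ : ∃ k, m = k + 1 := ⟨m - 1, by omega⟩
    rw [← E_even (2 * k + 1)]
    apply E_congr
    intro w hw
    apply I_congr
    apply evenWord_iff
    rw [hw]
    exact ⟨k + 1, by ring⟩
  rw [h2] at h1
  have h3 : (2 : ℝ) ^ (2 * m) = 2 * 2 ^ (2 * m - 1) := by
    rw [← pow_succ']
    congr 1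
    omega
  rw [h3] at h1
  have h4 : (({W : List Bool | W.length = 2 * m ∧ EvenWord W}.ncard : ℕ) : ℝ) =
      ((2 ^ (2 * m - 1) : ℕ) : ℝ) := by
    rw [h1]
    push_cast
    ring
  exact_mod_cast h4

/-- the number of shuffle squares -/
lemma ncard_square (ε : ℝ) (hε : 0 < ε) : ∃ m₀ : ℕ, ∀ m ≥ m₀,
    |({W : List Bool | W.length = 2 * m ∧ IsShuffleSquare W}.ncard : ℝ) /
      ({W : List Bool | W.length = 2 * m ∧ EvenWord W}.ncard : ℝ) - 1| ≤ ε := by
  obtain ⟨n₀, hn₀⟩ := fd_all (ε / 2) (by positivity)
  refine ⟨n₀ + 1, fun m hm => ?_⟩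
  have h1 := hn₀ (2 * m) (by omega)
  have h2 := ncard_even m (by omega)
  have h3 := ncard_eq (2 * m) EvenWord
  have h4 := ncard_eq (2 * m) IsShuffleSquare
  have h5 : (0 : ℝ) < 2 ^ (2 * m) := by positivity
  have h6 : E (2 * m) (fun w => I (IsShuffleSquare w)) ≤ E (2 * m) (fun w => I (EvenWord w)) :=
    E_I_mono (fun w _ h => even_of_square h)
  have h7 : E (2 * m) (fun w => I (EvenWord w)) ≤
      E (2 * m) (fun w => I (IsShuffleSquare w)) +
        E (2 * m) (fun w => I (EvenWord w ∧ ¬ Que [] w [])) := by
    refine le_trans (E_I_mono ?_) (E_I_or (2 * m) IsShuffleSquare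
      (fun w => EvenWord w ∧ ¬ Que [] w []))
    intro w _ hw
    by_cases hq : Que [] w []
    · exact Or.inl (isShuffleSquare_of_que hq)
    · exact Or.inr ⟨hw, hq⟩
  have h8 : E (2 * m) (fun w => I (EvenWord w)) = 1 / 2 := by
    have h9 : (({W : List Bool | W.length = 2 * m ∧ EvenWord W}.ncard : ℕ) : ℝ) =
        2 ^ (2 * m - 1) := by
      rw [h2]
      push_cast
      rfl
    rw [h9] at h3
    have h10 : (2 : ℝ) ^ (2 * m) = 2 * 2 ^ (2 * m - 1) := by
      rw [← pow_succ']
      congr 1
      omega
    rw [h10] at h3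
    have h11 : (0 : ℝ) < 2 ^ (2 * m - 1) := by positivity
    nlinarith
  rw [h3, h4, mul_div_mul_right _ _ h5.ne', h8]
  rw [h8] at h6 h7
  rw [abs_le]
  constructor
  · have : E (2 * m) (fun w => I (IsShuffleSquare w)) / (1 / 2) =
        2 * E (2 * m) (fun w => I (IsShuffleSquare w)) := by ring
    rw [this]
    linarith
  · have : E (2 * m) (fun w => I (IsShuffleSquare w)) / (1 / 2) =
        2 * E (2 * m) (fun w => I (IsShuffleSquare w)) := by ring
    rw [this]
    linarith

theorem tendsto_squares : Tendsto (fun m : ℕ =>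
    ({W : List Bool | W.length = 2 * m ∧ IsShuffleSquare W}.ncard : ℝ) /
      ({W : List Bool | W.length = 2 * m ∧ EvenWord W}.ncard : ℝ)) atTop (𝓝 1) := by
  rw [Metric.tendsto_atTop]
  intro ε hε
  obtain ⟨m₀, hm₀⟩ := ncard_square (ε / 2) (by positivity)
  refine ⟨m₀, fun m hm => ?_⟩
  rw [Real.dist_eq]
  exact lt_of_le_of_lt (hm₀ m hm) (by linarith)

end Pool.Agent.AA
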