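import Pool.Agent.MP7725.Basic

/-!
# Almost all even binary words are shuffle squares (MP_7725c6_co, helper49): definitions

`Que q w r` (file `Pool/Agent/MP7725/Basic.lean`): reading the word `w` one can pass from the queue
`q` to the queue `r` (every letter of `w` is appended to the queue or cancelled with the queue).
-/

namespace Pool.Agent.AA

open Pool.Agent.MP7725

/-- the average of `f` over the `2 ^ n` words of length `n` -/
noncomputable def E : ℕ → (List Bool → ℝ) → ℝ
  | 0, f => f []
  | n + 1, f => (E n (fun w => f (true :: w)) + E n (fun w => f (false :: w))) / 2

open Classical in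
/-- the indicator of a statement -/
noncomputable def I (p : Prop) : ℝ := if p then 1 else 0

/-- greedy reading of one letter: if it is the first letter of the queue, this letter is removed,
otherwise the letter is appended -/
def st (q : List Bool) (a : Bool) : List Bool := if q.head? = some a then q.tail else q ++ [a]

/-- greedy reading of a word -/
def gr (q w : List Bool) : List Bool := w.foldl st q

/-- the queue has at most two runs -/
def R2 (q : List Bool) : Prop :=
  ∃ (a : Bool) (x y : ℕ), q = List.replicate x a ++ List.replicate y (!a)

/-- the fourth moment of the length after `n` greedy steps from a queue of length `r` -/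
noncomputable def hh (n : ℕ) (r : ℝ) : ℝ := r ^ 4 + 6 * n * r ^ 2 + 3 * n ^ 2 - 2 * n

/-- reading `v` from the queue `q` one can reach a queue with at most two runs which is shorter by
`2 * G` than the greedy queue, and not shorter than half of `q` -/
def Suc (G : ℕ) (q v : List Bool) : Prop :=
  ∃ r, Que q v r ∧ R2 r ∧ r.length + 2 * G = (gr q v).length ∧ q.length ≤ 2 * r.length

/-- the number of times `t < |w|` such that, after the first `t` letters of `w`, no queue of length
`≤ K` can be reached from `q` -/
noncomputable def bd (K : ℕ) (q w : List Bool) : ℝ :=
  ∑ t ∈ Finset.range w.length, I (¬ ∃ r, Que q (w.take t) r ∧ r.length ≤ K)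

/-- `u` and `v` have initial parts `s ++ b ^ J`, `s' ++ b ^ J` such that `s` and `s'` contain the
letter `!b` equally often -/
def Mt (b : Bool) (J : ℕ) (u v : List Bool) : Prop :=
  ∃ s s' : List Bool, s ++ List.replicate J b <+: u ∧ s' ++ List.replicate J b <+: v ∧
    s.count (!b) = s'.count (!b)

end Pool.Agent.AA
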