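import Pool.Agent.AA.Defs

/-!
# Averages over words
-/

namespace Pool.Agent.AA

open Pool.Agent.MP7725

lemma E_zero (f : List Bool → ℝ) : E 0 f = f [] := rfl

lemma E_succ (n : ℕ) (f : List Bool → ℝ) :
    E (n + 1) f = (E n (fun w => f (true :: w)) + E n (fun w => f (false :: w))) / 2 := rfl

lemma E_congr {n : ℕ} {f g : List Bool → ℝ} (h : ∀ w : List Bool, w.length = n → f w = g w) :
    E n f = E n g := by
  induction n generalizing f g with
  | zero => exact h [] rfl
  | succ n ih =>
    rw [E_succ, E_succ, ih (g := fun w => g (true :: w)) (fun w hw => h _ (by simp [hw])),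
      ih (g := fun w => g (false :: w)) (fun w hw => h _ (by simp [hw]))]

lemma E_mono {n : ℕ} {f g : List Bool → ℝ} (h : ∀ w : List Bool, w.length = n → f w ≤ g w) :
    E n f ≤ E n g := by
  induction n generalizing f g with
  | zero => exact h [] rfl
  | succ n ih =>
    rw [E_succ, E_succ]
    have h1 := ih (f := fun w => f (true :: w)) (g := fun w => g (true :: w))
      (fun w hw => h _ (by simp [hw]))
    have h2 := ih (f := fun w => f (false :: w)) (g := fun w => g (false :: w))
      (fun w hw => h _ (by simp [hw]))
    linarith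

lemma E_const (n : ℕ) (c : ℝ) : E n (fun _ => c) = c := by
  induction n with
  | zero => rfl
  | succ n ih =>
    rw [E_succ, ih]
    ring

lemma E_add (n : ℕ) (f g : List Bool → ℝ) : E n (fun w => f w + g w) = E n f + E n g := by
  induction n generalizing f g with
  | zero => rfl
  | succ n ih =>
    rw [E_succ, E_succ, E_succ, ih (fun w => f (true :: w)) (fun w => g (true :: w)),
      ih (fun w => f (false :: w)) (fun w => g (false :: w))]
    ring

lemma E_mul (n : ℕ) (c : ℝ) (f : List Bool → ℝ) : E n (fun w => c * f w) = c * E n f := by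
  induction n generalizing f with
  | zero => rfl
  | succ n ih =>
    rw [E_succ, E_succ, ih (fun w => f (true :: w)), ih (fun w => f (false :: w))]
    ring

lemma E_sub (n : ℕ) (f g : List Bool → ℝ) : E n (fun w => f w - g w) = E n f - E n g := by
  have h := E_add n f (fun w => (-1) * g w)
  rw [E_mul] at h
  rw [sub_eq_add_neg, ← neg_one_mul, ← h]
  apply E_congr
  intro w _
  ring

lemma E_sum {ι : Type*} (n : ℕ) (s : Finset ι) (f : ι → List Bool → ℝ) :
    E n (fun w => ∑ i ∈ s, f i w) = ∑ i ∈ s, E n (f i) := by
  classical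
  induction s using Finset.induction_on with
  | empty => simp [E_const]
  | insert a s ha ih =>
    rw [Finset.sum_insert ha, ← ih, ← E_add]
    apply E_congr
    intro w _
    rw [Finset.sum_insert ha]

lemma E_nonneg {n : ℕ} {f : List Bool → ℝ} (h : ∀ w : List Bool, w.length = n → 0 ≤ f w) :
    0 ≤ E n f := by
  rw [← E_const n 0]
  exact E_mono h

/-- averages over words of length `m + n` -/
lemma E_append (m n : ℕ) (f : List Bool → ℝ) :
    E (m + n) f = E m (fun u => E n (fun v => f (u ++ v))) := by
  induction m generalizing f with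
  | zero =>
    rw [Nat.zero_add, E_zero]
    rfl
  | succ m ih =>
    rw [Nat.add_right_comm, E_succ, E_succ, ih, ih]
    rfl

/-- the last letter -/
lemma E_snoc (n : ℕ) (f : List Bool → ℝ) :
    E (n + 1) f = (E n (fun w => f (w ++ [true])) + E n (fun w => f (w ++ [false]))) / 2 := by
  rw [E_append n 1]
  have : ∀ u : List Bool, E 1 (fun v => f (u ++ v)) =
      (1 / 2) * f (u ++ [true]) + (1 / 2) * f (u ++ [false]) := by
    intro u
    rw [E_succ, E_zero, E_zero]
    ring
  rw [E_congr (fun u _ => this u), E_add, E_mul, E_mul]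
  ring

/-- the reversed words -/
lemma E_reverse (n : ℕ) (f : List Bool → ℝ) : E n (fun w => f w.reverse) = E n f := by
  induction n generalizing f with
  | zero => rfl
  | succ n ih =>
    rw [E_succ, E_snoc, ← ih (fun w => f (w ++ [true])), ← ih (fun w => f (w ++ [false]))]
    simp only [List.reverse_cons]

lemma I_of {p : Prop} (h : p) : I p = 1 := by
  unfold I
  rw [if_pos h]

lemma I_of_not {p : Prop} (h : ¬ p) : I p = 0 := by
  unfold I
  rw [if_neg h]

lemma I_nonneg (p : Prop) : 0 ≤ I p := by
  by_cases h : p
  · rw [I_of h]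
    exact zero_le_one
  · rw [I_of_not h]

lemma I_le_one (p : Prop) : I p ≤ 1 := by
  by_cases h : p
  · rw [I_of h]
  · rw [I_of_not h]
    exact zero_le_one

lemma I_mono {p q : Prop} (h : p → q) : I p ≤ I q := by
  by_cases hp : p
  · rw [I_of hp, I_of (h hp)]
  · rw [I_of_not hp]
    exact I_nonneg q

lemma I_congr {p q : Prop} (h : p ↔ q) : I p = I q :=
  le_antisymm (I_mono h.mp) (I_mono h.mpr)

lemma I_or_le (p q : Prop) : I (p ∨ q) ≤ I p + I q := by
  by_cases hp : p
  · rw [I_of (Or.inl hp), I_of hp]
    linarith [I_nonneg q]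
  · by_cases hq : q
    · rw [I_of (Or.inr hq), I_of hq]
      linarith [I_nonneg p]
    · rw [I_of_not (by tauto)]
      linarith [I_nonneg p, I_nonneg q]

lemma I_and (p q : Prop) : I (p ∧ q) = I p * I q := by
  by_cases hp : p
  · by_cases hq : q
    · rw [I_of ⟨hp, hq⟩, I_of hp, I_of hq, one_mul]
    · rw [I_of_not (fun h => hq h.2), I_of_not hq, mul_zero]
  · rw [I_of_not (fun h => hp h.1), I_of_not hp, zero_mul]

lemma I_not (p : Prop) : I (¬ p) = 1 - I p := by
  by_cases hp : p
  · rw [I_of hp, I_of_not (not_not.mpr hp), sub_self]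
  · rw [I_of hp, I_of_not hp, sub_zero]

lemma E_I_nonneg (n : ℕ) (P : List Bool → Prop) : 0 ≤ E n (fun w => I (P w)) :=
  E_nonneg (fun w _ => I_nonneg _)

lemma E_I_le_one (n : ℕ) (P : List Bool → Prop) : E n (fun w => I (P w)) ≤ 1 := by
  rw [← E_const n 1]
  exact E_mono (fun w _ => I_le_one _)

lemma E_I_mono {n : ℕ} {P Q : List Bool → Prop} (h : ∀ w : List Bool, w.length = n → P w → Q w) :
    E n (fun w => I (P w)) ≤ E n (fun w => I (Q w)) :=
  E_mono (fun w hw => I_mono (h w hw))

/-- the union bound -/
lemma E_I_or (n : ℕ) (P Q : List Bool → Prop) :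
    E n (fun w => I (P w ∨ Q w)) ≤ E n (fun w => I (P w)) + E n (fun w => I (Q w)) := by
  rw [← E_add]
  exact E_mono (fun _ _ => I_or_le _ _)

/-- independent parts -/
lemma E_indep (m n : ℕ) (f g : List Bool → ℝ) :
    E (m + n) (fun w => f (w.take m) * g (w.drop m)) = E m f * E n g := by
  rw [E_append, mul_comm (E m f), ← E_mul]
  apply E_congr
  intro u hu
  rw [mul_comm, ← E_mul]
  apply E_congr
  intro v _
  rw [← hu, List.take_left', List.drop_left']
  · rfl
  · rfl

/-- the average of an event is the proportion of words -/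
lemma E_card (n : ℕ) (P : List Bool → Prop) [DecidablePred P] :
    E n (fun w => I (P w)) * 2 ^ n =
      ((Finset.univ.filter (fun v : List.Vector Bool n => P v.toList)).card : ℝ) := by
  classical
  have key : ∀ (n : ℕ) (f : List Bool → ℝ), E n f * 2 ^ n = ∑ v : List.Vector Bool n, f v.toList := by
    intro n
    induction n with
    | zero =>
      intro f
      rw [E_zero, pow_zero, mul_one]
      have : (Finset.univ : Finset (List.Vector Bool 0)) = {List.Vector.nil} := by
        apply Finset.eq_singleton_iff_unique_mem.mpr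
        exact ⟨Finset.mem_univ _, fun v _ => Subsingleton.elim _ _⟩
      rw [this, Finset.sum_singleton]
      rfl
    | succ n ih =>
      intro f
      rw [E_succ]
      let e : Bool × List.Vector Bool n ≃ List.Vector Bool (n + 1) :=
        { toFun := fun p => p.1 ::ᵥ p.2
          invFun := fun v => (v.head, v.tail)
          left_inv := fun p => by simp
          right_inv := fun v => by simp }
      rw [← Equiv.sum_comp e, Fintype.sum_prod_type, Fintype.sum_bool]
      have h1 := ih (fun w => f (true :: w))
      have h2 := ih (fun w => f (false :: w))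
      have h3 : ∀ (a : Bool) (v : List.Vector Bool n), (e (a, v)).toList = a :: v.toList := by
        intro a v
        simp [e]
      simp only [h3]
      rw [← h1, ← h2]
      ring
  rw [key, Finset.card_filter]
  push_cast
  apply Finset.sum_congr rfl
  intro v _
  unfold I
  by_cases h : P v.toList
  · rw [if_pos h, if_pos h]
  · rw [if_neg h, if_neg h]

end Pool.Agent.AA
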