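import Pool.Agent.AA.St

/-!
# Module FD: almost all even words are shuffle squares (MP_7725c6_co, by helper30)
-/

namespace Pool.Agent.AA

open Pool.Agent.MP7725

/-- the probability that no short queue can be reached -/
noncomputable def FD_fb (K t : ℕ) : ℝ := E t (fun w => I (¬ ∃ r, Que [] w r ∧ r.length ≤ K))

lemma FD_fb_nonneg (K t : ℕ) : 0 ≤ FD_fb K t := E_I_nonneg _ _

lemma FD_E_take (m n : ℕ) (h : m ≤ n) (f : List Bool → ℝ) :
    E n (fun w => f (w.take m)) = E m f := by
  obtain ⟨k, rfl⟩ := Nat.exists_eq_add_of_le h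
  have h1 := E_indep m k f (fun _ => 1)
  rw [E_const, mul_one] at h1
  rw [← h1]
  exact E_congr fun w _ => (mul_one _).symm

lemma FD_E_pre (F : List Bool) : ∀ m : ℕ, F.length ≤ m →
    E m (fun v => I (F <+: v)) = (1 / 2) ^ F.length := by
  induction F with
  | nil =>
    intro m _
    rw [E_congr (g := fun _ => 1) (fun v _ => I_of List.nil_prefix), E_const]
    simp
  | cons a F ih =>
    intro m hm
    rw [List.length_cons] at hm
    obtain ⟨m, rfl⟩ : ∃ k, m = k + 1 := ⟨m - 1, by omega⟩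
    have h1 := ih m (by omega)
    have h2 : ∀ b : Bool, E m (fun w => I ((a :: F) <+: (b :: w))) =
        if a = b then (1 / 2) ^ F.length else 0 := by
      intro b
      split_ifs with hab
      · rw [← h1]
        refine E_congr fun w _ => I_congr ?_
        rw [List.cons_prefix_cons]
        exact ⟨fun h => h.2, fun h => ⟨hab, h⟩⟩
      · rw [← E_const m 0]
        refine E_congr fun w _ => I_of_not ?_
        rw [List.cons_prefix_cons]
        exact fun h => hab h.1
    rw [E_succ, h2, h2, List.length_cons, pow_succ]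
    cases a
    · simp
      ring
    · simp
      ring

lemma FD_fb_sum (K n : ℕ) : ∑ t ∈ Finset.range n, FD_fb K t = E n (bd K []) := by
  have h1 : E n (bd K []) = E n (fun w => ∑ t ∈ Finset.range n,
      I (¬ ∃ r, Que [] (w.take t) r ∧ r.length ≤ K)) := by
    refine E_congr fun w hw => ?_
    unfold bd
    rw [hw]
  rw [h1, E_sum]
  refine Finset.sum_congr rfl fun t ht => ?_
  exact (FD_E_take t n (Finset.mem_range.1 ht).le
    (fun w => I (¬ ∃ r, Que [] w r ∧ r.length ≤ K))).symm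

lemma FD_rev (K p : ℕ) : E p (fun w => I (¬ ∃ r, Que r w [] ∧ r.length ≤ K)) ≤ FD_fb K p := by
  unfold FD_fb
  rw [← E_reverse p (fun w => I (¬ ∃ r, Que [] w r ∧ r.length ≤ K))]
  refine E_mono fun w _ => I_mono fun h => ?_
  rintro ⟨r, h1, h2⟩
  refine h ⟨r.reverse, ?_, ?_⟩
  · have h3 := que_reverse h1
    rw [List.reverse_reverse, List.reverse_nil] at h3
    exact h3
  · rw [List.length_reverse]
    exact h2

lemma FD_ev1 (F : List Bool) (K p n : ℕ) (h : p + F.length ≤ n) :
    E n (fun w => I (Fa F p w ∧ ¬ ∃ r, Que [] (w.take p) r ∧ r.length ≤ K)) ≤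
      (1 / 2) ^ F.length * FD_fb K p := by
  obtain ⟨k, rfl⟩ := Nat.exists_eq_add_of_le (le_trans (Nat.le_add_right p F.length) h)
  have h1 := E_indep p k (fun w => I (¬ ∃ r, Que [] w r ∧ r.length ≤ K)) (fun v => I (F <+: v))
  rw [FD_E_pre F k (by omega)] at h1
  rw [mul_comm]
  refine le_trans (E_mono fun w _ => ?_) (le_of_eq h1)
  rw [I_and, mul_comm]
  exact mul_le_mul_of_nonneg_left (I_mono fun h2 => h2.2) (I_nonneg _)

lemma FD_ev2 (F : List Bool) (K p n : ℕ) (h : p + F.length ≤ n) :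
    E n (fun w => I (Fa F p w ∧ ¬ ∃ r, Que r (w.drop (p + F.length)) [] ∧ r.length ≤ K)) ≤
      (1 / 2) ^ F.length * FD_fb K (n - (p + F.length)) := by
  obtain ⟨k, rfl⟩ := Nat.exists_eq_add_of_le h
  rw [Nat.add_sub_cancel_left]
  have h1 := E_indep (p + F.length) k (fun w => I (F <+: w.drop p))
    (fun v => I (¬ ∃ r, Que r v [] ∧ r.length ≤ K))
  have h2 : E (p + F.length) (fun w => I (F <+: w.drop p)) = (1 / 2) ^ F.length := by
    have h3 := E_indep p F.length (fun _ => 1) (fun v => I (F <+: v))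
    rw [E_const, one_mul, FD_E_pre F F.length le_rfl] at h3
    rw [← h3]
    exact E_congr fun w _ => (one_mul _).symm
  rw [h2] at h1
  refine le_trans (E_mono fun w _ => ?_) ((le_of_eq h1).trans
    (mul_le_mul_of_nonneg_left (FD_rev K k) (by positivity)))
  rw [I_and]
  refine mul_le_mul_of_nonneg_right (I_mono fun h2 => ?_) (I_nonneg _)
  rw [List.drop_take, List.prefix_take_iff]
  exact ⟨h2.2, by omega⟩

lemma FD_sum_inj (K n : ℕ) (s : Finset ℕ) (φ : ℕ → ℕ) (hinj : Set.InjOn φ s)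
    (hmap : ∀ p ∈ s, φ p ≤ n) :
    ∑ p ∈ s, FD_fb K (φ p) ≤ ∑ t ∈ Finset.range (n + 1), FD_fb K t := by
  rw [← Finset.sum_image (f := FD_fb K) hinj]
  refine Finset.sum_le_sum_of_subset_of_nonneg ?_ fun t _ _ => FD_fb_nonneg K t
  intro t ht
  obtain ⟨p, hp, rfl⟩ := Finset.mem_image.1 ht
  have := hmap p hp
  exact Finset.mem_range.2 (by omega)

lemma FD_sum (C : ℝ) (K n l : ℕ) (hC : 0 ≤ C) (hK : 1 ≤ K) (hn : 1 ≤ n)
    (hbad : ∀ K n : ℕ, 1 ≤ K → E n (bd K []) ≤ C * n / K) :
    ∑ p ∈ Finset.range n, (if p + 2 + l ≤ n then FD_fb K (p + 2) + FD_fb K (n - (p + 2 + l))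
      else 0) ≤ 4 * C * n / K := by
  rw [← Finset.sum_filter, Finset.sum_add_distrib]
  have hK0 : (0 : ℝ) < K := by exact_mod_cast hK
  have hn0 : (1 : ℝ) ≤ n := by exact_mod_cast hn
  have h1 := FD_sum_inj K n ((Finset.range n).filter fun p => p + 2 + l ≤ n) (fun p => p + 2)
    (fun a _ b _ hab => by simpa using hab)
    (fun p hp => by
      have := (Finset.mem_filter.1 hp).2
      show p + 2 ≤ n
      omega)
  have h2 := FD_sum_inj K n ((Finset.range n).filter fun p => p + 2 + l ≤ n)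
    (fun p => n - (p + 2 + l))
    (fun a ha b hb hab => by
      have e1 := (Finset.mem_filter.1 ha).2
      have e2 := (Finset.mem_filter.1 hb).2
      simp only at hab
      omega)
    (fun p _ => Nat.sub_le _ _)
  have h3 := hbad K (n + 1) hK
  rw [← FD_fb_sum] at h3
  have h4 : C * ((n + 1 : ℕ) : ℝ) / K ≤ 2 * C * n / K := by
    apply div_le_div_of_nonneg_right _ hK0.le
    push_cast
    nlinarith
  have h5 : 4 * C * n / K = 2 * C * n / K + 2 * C * n / K := by ring
  rw [h5]
  exact add_le_add (h1.trans (h3.trans h4)) (h2.trans (h3.trans h4))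

theorem t_FD : M_FD := by
  intro hUNI hBAD hFA hFB hFC ε₀ hε₀
  obtain ⟨C, hC, hbad⟩ := hBAD
  obtain ⟨ε, hε⟩ : ∃ ε, ε = min ε₀ 1 := ⟨_, rfl⟩
  have hεpos : 0 < ε := by
    rw [hε]
    exact lt_min hε₀ one_pos
  have hε1 : ε ≤ 1 := by
    rw [hε]
    exact min_le_right _ _
  have hεε : ε ≤ ε₀ := by
    rw [hε]
    exact min_le_left _ _
  obtain ⟨Λ, hΛ⟩ : ∃ Λ, Λ = Real.log (2 / ε) := ⟨_, rfl⟩
  have hΛ0 : 0 ≤ Λ := by
    rw [hΛ]
    apply Real.log_nonneg
    rw [le_div_iff₀ hεpos]
    linarith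
  obtain ⟨K, hK⟩ : ∃ K : ℕ, K = ⌈64 * C * (4 * Λ + 1) / ε⌉₊ + 1 := ⟨_, rfl⟩
  have hK1 : 1 ≤ K := by omega
  have hK0 : (0 : ℝ) < K := by exact_mod_cast hK1
  have hK2 : 32 * C * (4 * Λ + 1) / K ≤ ε / 2 := by
    have h1 : 64 * C * (4 * Λ + 1) / ε ≤ K := by
      rw [hK]
      push_cast
      linarith [Nat.le_ceil (64 * C * (4 * Λ + 1) / ε)]
    rw [div_le_iff₀ hεpos] at h1
    rw [div_le_iff₀ hK0]
    nlinarith
  obtain ⟨u, hu⟩ := hUNI K
  obtain ⟨F, hF⟩ : ∃ F, F = u ++ u.reverse := ⟨_, rfl⟩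
  have hFl : F.length = 2 * u.length := by
    rw [hF, List.length_append, List.length_reverse]
    ring
  obtain ⟨M, hM⟩ : ∃ M : ℕ, M = ⌈(2 : ℝ) ^ (F.length + 2) * Λ⌉₊ := ⟨_, rfl⟩
  have hM1 : (2 : ℝ) ^ (F.length + 2) * Λ ≤ M := by
    rw [hM]
    exact Nat.le_ceil _
  have hM2 : (M : ℝ) ≤ 2 ^ F.length * (4 * Λ + 1) := by
    have h1 := (Nat.ceil_lt_add_one (mul_nonneg (by positivity :
      (0 : ℝ) ≤ (2 : ℝ) ^ (F.length + 2)) hΛ0)).le
    rw [← hM] at h1
    have h2 : (1 : ℝ) ≤ 2 ^ F.length := one_le_pow₀ (by norm_num)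
    have h3 : (2 : ℝ) ^ (F.length + 2) = 2 ^ F.length * 4 := by
      rw [pow_add]
      norm_num
    rw [h3] at h1
    linarith
  have hM3 : (1 - (1 / 2 : ℝ) ^ (F.length + 2)) ^ M ≤ ε / 2 := by
    have h1 : (1 / 2 : ℝ) ^ (F.length + 2) ≤ 1 := pow_le_one₀ (by norm_num) (by norm_num)
    have h2 : 1 - (1 / 2 : ℝ) ^ (F.length + 2) ≤ Real.exp (-(1 / 2 : ℝ) ^ (F.length + 2)) :=
      Real.one_sub_le_exp_neg _
    calc (1 - (1 / 2 : ℝ) ^ (F.length + 2)) ^ M ≤
        (Real.exp (-(1 / 2 : ℝ) ^ (F.length + 2))) ^ M := pow_le_pow_left₀ (by linarith) h2 M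
      _ = Real.exp (-(M * (1 / 2 : ℝ) ^ (F.length + 2))) := by
        rw [← Real.exp_nat_mul]
        congr 1
        ring
      _ ≤ Real.exp (-Λ) := by
        apply Real.exp_le_exp.2
        have h3 : Λ ≤ M * (1 / 2 : ℝ) ^ (F.length + 2) := by
          have h4 : (2 : ℝ) ^ (F.length + 2) * (1 / 2 : ℝ) ^ (F.length + 2) = 1 := by
            rw [← mul_pow]
            norm_num
          calc Λ = ((2 : ℝ) ^ (F.length + 2) * Λ) * (1 / 2 : ℝ) ^ (F.length + 2) := by
                linear_combination (-Λ) * h4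
            _ ≤ _ := mul_le_mul_of_nonneg_right hM1 (by positivity)
        linarith
      _ = ε / 2 := by
        rw [hΛ, Real.exp_neg, Real.exp_log (by positivity), inv_div]
  refine ⟨max 4 (2 * (M * (F.length + 2)) + 2), fun n hn => ?_⟩
  have hn4 : 4 ≤ n := (le_max_left _ _).trans hn
  have hnM : 2 * (M * (F.length + 2)) + 2 ≤ n := (le_max_right _ _).trans hn
  have hn0 : (0 : ℝ) < n := by
    have : 0 < n := by omega
    exact_mod_cast this
  obtain ⟨g, hg⟩ : ∃ g : ℕ → ℝ, g = fun p => if p + 2 + F.length ≤ n then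
    FD_fb K (p + 2) + FD_fb K (n - (p + 2 + F.length)) else 0 := ⟨_, rfl⟩
  have hg0 : ∀ p, 0 ≤ g p := by
    intro p
    rw [hg]
    simp only
    split_ifs
    · exact add_nonneg (FD_fb_nonneg _ _) (FD_fb_nonneg _ _)
    · exact le_rfl
  have hgs : ∑ p ∈ Finset.range n, g p ≤ 4 * C * n / K := by
    rw [hg]
    exact FD_sum C K n F.length hC hK1 (by omega) hbad
  obtain ⟨c, hc, hcn, hsum⟩ := hFC g n M (F.length + 2) _ hg0 hgs hn4 hnM
  have hpn : ∀ i < M, c + i * (F.length + 2) + 2 + F.length ≤ n := by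
    intro i hi
    have h1 : (i + 1) * (F.length + 2) ≤ M * (F.length + 2) := Nat.mul_le_mul_right _ hi
    have h2 : (i + 1) * (F.length + 2) = i * (F.length + 2) + (F.length + 2) := by ring
    omega
  -- the pointwise bound
  have hpt : E n (fun w => I (EvenWord w ∧ ¬ Que [] w [])) ≤
      E n (fun w => I (∀ i < M, ¬ Fa F (c + i * (F.length + 2) + 2) w) +
        ∑ i ∈ Finset.range M,
          (I (Fa F (c + i * (F.length + 2) + 2) w ∧
            ¬ ∃ r, Que [] (w.take (c + i * (F.length + 2) + 2)) r ∧ r.length ≤ K) +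
          I (Fa F (c + i * (F.length + 2) + 2) w ∧
            ¬ ∃ r, Que r (w.drop (c + i * (F.length + 2) + 2 + F.length)) [] ∧
              r.length ≤ K))) := by
    refine E_mono fun w _ => ?_
    by_cases hw : EvenWord w ∧ ¬ Que [] w []
    swap
    · rw [I_of_not hw]
      exact add_nonneg (I_nonneg _) (Finset.sum_nonneg fun i _ =>
        add_nonneg (I_nonneg _) (I_nonneg _))
    · rw [I_of hw]
      by_cases hall : ∀ i < M, ¬ Fa F (c + i * (F.length + 2) + 2) w
      · rw [I_of hall]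
        have : 0 ≤ ∑ i ∈ Finset.range M,
          (I (Fa F (c + i * (F.length + 2) + 2) w ∧
            ¬ ∃ r, Que [] (w.take (c + i * (F.length + 2) + 2)) r ∧ r.length ≤ K) +
          I (Fa F (c + i * (F.length + 2) + 2) w ∧
            ¬ ∃ r, Que r (w.drop (c + i * (F.length + 2) + 2 + F.length)) [] ∧
              r.length ≤ K)) :=
          Finset.sum_nonneg fun i _ => add_nonneg (I_nonneg _) (I_nonneg _)
        linarith
      · push Not at hall
        obtain ⟨i, hi, hfa⟩ := hall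
        have h1 := Finset.single_le_sum (f := fun i =>
          (I (Fa F (c + i * (F.length + 2) + 2) w ∧
            ¬ ∃ r, Que [] (w.take (c + i * (F.length + 2) + 2)) r ∧ r.length ≤ K) +
          I (Fa F (c + i * (F.length + 2) + 2) w ∧
            ¬ ∃ r, Que r (w.drop (c + i * (F.length + 2) + 2 + F.length)) [] ∧
              r.length ≤ K))) (fun i _ => add_nonneg (I_nonneg _) (I_nonneg _))
          (Finset.mem_range.2 hi)
        have h2 : (1 : ℝ) ≤ I (Fa F (c + i * (F.length + 2) + 2) w ∧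
            ¬ ∃ r, Que [] (w.take (c + i * (F.length + 2) + 2)) r ∧ r.length ≤ K) +
          I (Fa F (c + i * (F.length + 2) + 2) w ∧
            ¬ ∃ r, Que r (w.drop (c + i * (F.length + 2) + 2 + F.length)) [] ∧
              r.length ≤ K) := by
          by_cases e1 : ∃ r, Que [] (w.take (c + i * (F.length + 2) + 2)) r ∧ r.length ≤ K
          · by_cases e2 : ∃ r, Que r (w.drop (c + i * (F.length + 2) + 2 + F.length)) [] ∧
              r.length ≤ K
            · exfalso
              apply hw.2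
              refine hFA K u hu (c + i * (F.length + 2) + 2) w hw.1 ?_ e1 ?_
              · rw [← hF]
                exact hfa
              · rw [← hFl]
                exact e2
            · rw [I_of (p := Fa F (c + i * (F.length + 2) + 2) w ∧
                ¬ ∃ r, Que r (w.drop (c + i * (F.length + 2) + 2 + F.length)) [] ∧
                  r.length ≤ K) ⟨hfa, e2⟩]
              linarith [I_nonneg (Fa F (c + i * (F.length + 2) + 2) w ∧
                ¬ ∃ r, Que [] (w.take (c + i * (F.length + 2) + 2)) r ∧ r.length ≤ K)]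
          · rw [I_of (p := Fa F (c + i * (F.length + 2) + 2) w ∧
              ¬ ∃ r, Que [] (w.take (c + i * (F.length + 2) + 2)) r ∧ r.length ≤ K) ⟨hfa, e1⟩]
            linarith [I_nonneg (Fa F (c + i * (F.length + 2) + 2) w ∧
                ¬ ∃ r, Que r (w.drop (c + i * (F.length + 2) + 2 + F.length)) [] ∧
                  r.length ≤ K)]
        have h3 := I_nonneg (∀ i < M, ¬ Fa F (c + i * (F.length + 2) + 2) w)
        linarith
  rw [E_add, E_sum] at hpt
  have hev : ∀ i ∈ Finset.range M, E n (fun w =>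
      I (Fa F (c + i * (F.length + 2) + 2) w ∧
        ¬ ∃ r, Que [] (w.take (c + i * (F.length + 2) + 2)) r ∧ r.length ≤ K) +
      I (Fa F (c + i * (F.length + 2) + 2) w ∧
        ¬ ∃ r, Que r (w.drop (c + i * (F.length + 2) + 2 + F.length)) [] ∧
          r.length ≤ K)) ≤ (1 / 2) ^ F.length * g (c + i * (F.length + 2)) := by
    intro i hi
    have hp := hpn i (Finset.mem_range.1 hi)
    have hgi : g (c + i * (F.length + 2)) = FD_fb K (c + i * (F.length + 2) + 2) +
        FD_fb K (n - (c + i * (F.length + 2) + 2 + F.length)) := by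
      rw [hg]
      exact if_pos hp
    rw [E_add, hgi]
    refine (add_le_add (FD_ev1 F K _ n hp) (FD_ev2 F K _ n hp)).trans (le_of_eq ?_)
    ring
  have hfb := hFB F c M n hc (by rw [hFl]; exact even_two_mul _) hcn
  have h1 := Finset.sum_le_sum hev
  rw [← Finset.mul_sum] at h1
  have h2 : (1 / 2 : ℝ) ^ F.length * ∑ i ∈ Finset.range M, g (c + i * (F.length + 2)) ≤ ε / 2 := by
    calc (1 / 2 : ℝ) ^ F.length * ∑ i ∈ Finset.range M, g (c + i * (F.length + 2)) ≤
        (1 / 2 : ℝ) ^ F.length * (8 * M * (4 * C * n / K) / n) :=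
          mul_le_mul_of_nonneg_left hsum (by positivity)
      _ = ((1 / 2 : ℝ) ^ F.length * M) * (32 * C / K) := by
        field_simp
        ring
      _ ≤ ((1 / 2 : ℝ) ^ F.length * (2 ^ F.length * (4 * Λ + 1))) * (32 * C / K) := by
        apply mul_le_mul_of_nonneg_right _ (by positivity)
        exact mul_le_mul_of_nonneg_left hM2 (by positivity)
      _ = 32 * C * (4 * Λ + 1) / K := by
        have h4 : (1 / 2 : ℝ) ^ F.length * (2 : ℝ) ^ F.length = 1 := by
          rw [← mul_pow]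
          norm_num
        rw [← mul_assoc, h4]
        ring
      _ ≤ ε / 2 := hK2
  calc E n (fun w => I (EvenWord w ∧ ¬ Que [] w [])) ≤ ε / 2 + ε / 2 :=
        hpt.trans (add_le_add (hfb.trans hM3) (h1.trans h2))
    _ = ε := by ring
    _ ≤ ε₀ := hεε

end Pool.Agent.AA
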