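import Pool.Agent.AA.Exp

/-!
# Basic facts on queues and greedy readings
-/

namespace Pool.Agent.AA

open Pool.Agent.MP7725

lemma shuf_symm {X Y W : List Bool} (h : Shuf X Y W) : Shuf Y X W := by
  induction h with
  | nil => exact Shuf.nil
  | left a _ ih => exact Shuf.right a ih
  | right a _ ih => exact Shuf.left a ih

lemma shuf_reverse {X Y W : List Bool} (h : Shuf X Y W) :
    Shuf X.reverse Y.reverse W.reverse := by
  induction h with
  | nil => exact Shuf.nil
  | left a _ ih =>
    rw [List.reverse_cons, List.reverse_cons]
    have := ih.append (Shuf.left a Shuf.nil)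
    simpa using this
  | right a _ ih =>
    rw [List.reverse_cons, List.reverse_cons]
    have := ih.append (Shuf.right a Shuf.nil)
    simpa using this

lemma shuf_count {X Y W : List Bool} (h : Shuf X Y W) (b : Bool) :
    W.count b = X.count b + Y.count b := by
  induction h with
  | nil => rfl
  | left a _ ih => rw [List.count_cons, List.count_cons, ih]; omega
  | right a _ ih => rw [List.count_cons, List.count_cons, ih]; omega

lemma que_reverse {q w r : List Bool} (h : Que q w r) : Que r.reverse w.reverse q.reverse := by
  obtain ⟨X, Y, h1, h2⟩ := h
  refine ⟨Y.reverse, X.reverse, shuf_symm (shuf_reverse h1), ?_⟩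
  rw [← List.reverse_append, ← List.reverse_append, h2]

lemma que_even_count {q w r : List Bool} (h : Que q w r) (b : Bool) :
    Even (q.count b + w.count b + r.count b) := by
  obtain ⟨X, Y, h1, h2⟩ := h
  have h3 := shuf_count h1 b
  have h4 : (q ++ X).count b = (Y ++ r).count b := by rw [h2]
  rw [List.count_append, List.count_append] at h4
  exact ⟨q.count b + X.count b, by omega⟩

lemma que_refl (q : List Bool) : Que q [] q := ⟨[], [], Shuf.nil, by simp⟩

lemma que_st (q : List Bool) (a : Bool) : Que q [a] (st q a) := by
  unfold st
  split_ifs with h
  · cases q with
    | nil => simp at h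
    | cons b t =>
      simp only [List.head?_cons, Option.some.injEq] at h
      subst h
      exact ⟨[], [b], Shuf.right b Shuf.nil, by simp⟩
  · exact ⟨[a], [], Shuf.left a Shuf.nil, by simp⟩

lemma gr_nil (q : List Bool) : gr q [] = q := rfl

lemma gr_cons (q w : List Bool) (a : Bool) : gr q (a :: w) = gr (st q a) w := rfl

lemma gr_append (q u v : List Bool) : gr q (u ++ v) = gr (gr q u) v := List.foldl_append

lemma que_gr (q w : List Bool) : Que q w (gr q w) := by
  induction w generalizing q with
  | nil => exact que_refl q
  | cons a w ih => exact (que_st q a).trans (ih (st q a))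

lemma st_length_le (q : List Bool) (a : Bool) : (st q a).length ≤ q.length + 1 := by
  unfold st
  split_ifs with h
  · simp only [List.length_tail]
    omega
  · simp

lemma gr_length_le (q w : List Bool) : (gr q w).length ≤ q.length + w.length := by
  induction w generalizing q with
  | nil => simp [gr_nil]
  | cons a w ih =>
    rw [gr_cons, List.length_cons]
    have h1 := ih (st q a)
    have h2 := st_length_le q a
    omega

lemma st_pop (a : Bool) (q : List Bool) : st (a :: q) a = q := by
  unfold st
  simp

lemma st_push (a : Bool) (q : List Bool) : st (a :: q) (!a) = a :: q ++ [!a] := by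
  unfold st
  rw [if_neg (by simp)]

lemma st_nil (a : Bool) : st [] a = [a] := by
  unfold st
  simp

lemma st_two_pop (a : Bool) (x y : ℕ) :
    st (List.replicate (x + 1) a ++ List.replicate y (!a)) a =
      List.replicate x a ++ List.replicate y (!a) := by
  rw [List.replicate_succ, List.cons_append, st_pop]

lemma st_two_push (a : Bool) (x y : ℕ) :
    st (List.replicate (x + 1) a ++ List.replicate y (!a)) (!a) =
      List.replicate (x + 1) a ++ List.replicate (y + 1) (!a) := by
  rw [List.replicate_succ, List.cons_append, st_push, List.replicate_succ' (n := y)]
  simp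

lemma r2_st {q : List Bool} (h : R2 q) (b : Bool) : R2 (st q b) := by
  obtain ⟨a, x, y, rfl⟩ := h
  cases x with
  | zero =>
    rw [List.replicate_zero, List.nil_append]
    cases y with
    | zero =>
      rw [List.replicate_zero, st_nil]
      exact ⟨b, 1, 0, by simp⟩
    | succ y =>
      rcases Bool.eq_or_eq_not b (!a) with hb | hb
      · subst hb
        rw [List.replicate_succ, st_pop]
        exact ⟨a, 0, y, by simp⟩
      · subst hb
        refine ⟨!a, y + 1, 1, ?_⟩
        have := st_two_push (!a) y 0
        simpa using this
  | succ x =>
    rcases Bool.eq_or_eq_not b a with hb | hb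
    · subst hb
      rw [st_two_pop]
      exact ⟨b, x, y, rfl⟩
    · subst hb
      rw [st_two_push]
      exact ⟨a, x + 1, y + 1, rfl⟩

lemma r2_gr {q : List Bool} (h : R2 q) (w : List Bool) : R2 (gr q w) := by
  induction w generalizing q with
  | nil => exact h
  | cons a w ih => exact ih (r2_st h a)

lemma r2_nil : R2 [] := ⟨true, 0, 0, by simp⟩

/-- greedy reading within one phase -/
lemma gr_two (a : Bool) (x y : ℕ) (w : List Bool) (h : w.count a < x) :
    gr (List.replicate x a ++ List.replicate y (!a)) w =
      List.replicate (x - w.count a) a ++ List.replicate (y + w.count (!a)) (!a) := by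
  induction w generalizing x y with
  | nil => simp [gr_nil]
  | cons b w ih =>
    obtain ⟨x, rfl⟩ : ∃ x', x = x' + 1 := ⟨x - 1, by omega⟩
    rw [gr_cons]
    rcases Bool.eq_or_eq_not b a with hb | hb
    · subst hb
      simp only [List.count_cons_self] at h
      rw [st_two_pop, ih x y (by omega)]
      simp
    · subst hb
      have h' : w.count a < x + 1 := by
        simpa [List.count_cons] using h
      rw [st_two_push, ih (x + 1) (y + 1) h']
      simp [List.count_cons, Nat.add_assoc, Nat.add_comm 1]

/-- greedy reading of one whole phase -/
lemma gr_phase (a : Bool) (x y : ℕ) (w : List Bool) (h : (w ++ [a]).count a = x) :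
    gr (List.replicate x a ++ List.replicate y (!a)) (w ++ [a]) =
      List.replicate (y + w.count (!a)) (!a) := by
  rw [List.count_append, List.count_singleton_self] at h
  rw [gr_append, gr_two a x y w (by omega)]
  have h1 : x - w.count a = 0 + 1 := by omega
  rw [h1, gr_cons, gr_nil, st_two_pop]
  simp

/-- the exact fourth moment of the greedy length -/
theorem E_gr (n : ℕ) (q : List Bool) :
    E n (fun w => ((gr q w).length : ℝ) ^ 4) = hh n q.length := by
  induction n generalizing q with
  | zero =>
    rw [E_zero, gr_nil]
    unfold hh
    push_cast
    ring
  | succ n ih =>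
    rw [E_succ]
    simp only [gr_cons]
    rw [ih, ih]
    cases q with
    | nil =>
      rw [st_nil, st_nil]
      unfold hh
      simp only [List.length_cons, List.length_nil]
      push_cast
      ring
    | cons a t =>
      cases a with
      | true =>
        have h1 := st_push true t
        rw [Bool.not_true] at h1
        rw [st_pop, h1]
        unfold hh
        simp only [List.length_cons, List.length_nil, List.cons_append, List.length_append]
        push_cast
        ring
      | false =>
        have h1 := st_push false t
        rw [Bool.not_false] at h1
        rw [st_pop, h1]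
        unfold hh
        simp only [List.length_cons, List.length_nil, List.cons_append, List.length_append]
        push_cast
        ring

end Pool.Agent.AA
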