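import Pool.Agent.AA.Que

/-!
# Module statements: almost all even binary words are shuffle squares (MP_7725c6_co, helper49)

THEOREM. The proportion of shuffle squares among the even binary words of length `2 m` tends to `1`
(conjecture of He, Huang, Nam and Thaper).

Module `X` proves `theorem t_X : S_X` (or `M_X`, whose hypotheses are statements of other modules)
in the namespace `Pool.Agent.AA`, in the file `Pool/Agent/AA/X.lean`, importing this file. The
proofs are in the doc strings. `Pool/Agent/AA/Exp.lean` contains the rules for the average `E` and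
the indicator `I` (`E_succ`, `E_append`, `E_mono`, `E_add`, `E_mul`, `E_sum`, `E_I_or`, `E_indep`,
`E_reverse`, ...), `Pool/Agent/AA/Que.lean` the rules for `Que`, `gr`, `R2` (`que_gr`, `que_reverse`,
`que_even_count`, `gr_append`, `gr_two`, `gr_phase`, `r2_gr`, `gr_length_le`, `E_gr`, ...), and
`Pool/Agent/MP7725/Basic.lean` `Shuf`, `Que`, `Que.trans`, `Que.push`, `Que.pop`, `que_transfer`.
-/

namespace Pool.Agent.AA

open Pool.Agent.MP7725

/-- UNI. The universal word. PROOF. (a) For every even queue `p` there is a word `v` with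
`Que p v []` and `Que [] v []`: let `r = gr [] p`. It is even (`que_even_count`, `que_gr`), and it has
at most two runs (`r2_gr`, `r2_nil`), so `r = a ^ (2 x) (!a) ^ (2 y)` (counts) and `Que [] r []` by
`que_even` twice. Take `v = p ++ r`: `Que p p []` (`Que.pop`) and `Que [] r []`; `Que [] p r`
(`que_gr`) and `Que r r []`. (b) For every finite list `l` of even queues there is a word `u` with
`Que q u []` for all `q ∈ l` and `Que [] u []`: induction on the list; for `q :: l` let `u` be the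
word for `l`, `p = gr q u` (it is even, as `u` is even by `Que [] u []`), `v` the word for `p`; take
`u ++ v`. (c) the words of length `≤ K` are finitely many (induction on `K`, or
`List.finite_length_le`). -/
def S_UNI : Prop :=
  ∀ K : ℕ, ∃ u : List Bool, ∀ q : List Bool, EvenWord q → q.length ≤ K → Que q u []

/-- PFX. Stopping times. PROOF. Induction on `L` for all `T`, `A`. If `T []` holds, then the only
`v` with `T v` which is an initial part of a word is `[]`, so the left side is at most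
`E L (fun w => I (A [] w)) ≤ c`. If not: `L = 0`: the event is impossible, `0 ≤ c`. `L + 1`: for
`w = a :: w'` the event is `∃ v' u, w' = v' ++ u ∧ T (a :: v') ∧ A (a :: v') u`; apply the induction
hypothesis to `T (a :: ·)`, `A (a :: ·)` for `a = true, false` and take the average (`E_succ`). -/
def S_PFX : Prop :=
  ∀ (L : ℕ) (T : List Bool → Prop) (A : List Bool → List Bool → Prop) (c : ℝ), 0 ≤ c →
    (∀ u v, T u → T v → u <+: v → u = v) →
    (∀ v, T v → v.length ≤ L → E (L - v.length) (fun u => I (A v u)) ≤ c) →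
    E L (fun w => I (∃ v u, w = v ++ u ∧ T v ∧ A v u)) ≤ c

/-- HIT. The simple random walk hits every level. PROOF. Let
`p n g = E n (fun w => I (∀ v, v <+: w → v.count b < v.count (!b) + g))`, the probability that the
level `g` is not hit in `n` steps. `p n 0 = 0` (take `v = []`), `p n g ≤ 1`,
`p (n + 1) (g + 1) = (p n g + p n (g + 2)) / 2` (first letter `b` or `!b`; the initial part `[]` gives
no condition as `g + 1 > 0`), and `p (n + 1) g ≤ p n g`. So the limit `p g = ⨅ n, p n g` exists,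
`p 0 = 0`, `p (g + 2) = 2 p (g + 1) - p g`, hence `p g = g * p 1`; as `p g ≤ 1` for all `g`, `p 1 = 0`
and `p g = 0` for all `g`. -/
def S_HIT : Prop :=
  ∀ (b : Bool) (G : ℕ), ∃ J : ℕ,
    E J (fun w => I (∀ v, v <+: w → v.count b < v.count (!b) + G)) ≤ 1 / 8

/-- MAT. Two independent words have a common place for a block `b ^ J`. PROOF. Let
`g n = E n (fun u => E n (fun v => I (¬ Mt b J u v)))`; `Mt` is preserved if the words are
prolonged, so more generally `E n (fun u => E n' (fun v => I (¬ Mt b J u v))) ≤ g m` if `m ≤ n`,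
`m ≤ n'` (`E_append`). Let `m > J`, `n ≥ m`. Every `u` of length `n` is either `b ^ m ++ _` or
`b ^ i ++ (!b) :: u'` with `i < m` (probability `2 ^ (-i-1)`), so, for `0 ≤ f ≤ 1`,
`E n f ≤ ∑ i ∈ range m, 2 ^ (-i-1) * E (n - i - 1) (fun u' => f (b ^ i ++ (!b) :: u')) + 2 ^ (-m)`
(induction on `m`). Apply this to both words: for `i ≥ J` and `i' ≥ J` the pair is in `Mt` (`s = s' = []`);
in the other cases `¬ Mt b J (b ^ i ++ (!b) :: u') (b ^ i' ++ (!b) :: v')` implies `¬ Mt b J u' v'`. So
`g n ≤ (1 - c) * g (n - m) + 2 * 2 ^ (-m)` with `c = (2 ^ (-J) - 2 ^ (-m)) ^ 2 > 0`; for `m = J + k`,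
`c ≥ 4 ^ (-J-1)`. Choose `k` with `2 * 2 ^ (-m) / c ≤ 1 / 16`, then
`g (r * m) ≤ (1 - c) ^ r + 2 * 2 ^ (-m) / c` (induction on `r`) is `≤ 1 / 8` for large `r`. -/
def S_MAT : Prop :=
  ∀ (b : Bool) (J : ℕ), ∃ B : ℕ, E B (fun u => E B (fun v => I (¬ Mt b J u v))) ≤ 1 / 8

/-- WAL. Deviations of the walk. PROOF. `E n (fun w => (c + w.count true - w.count false) ^ 4) = hh n c`
for all real `c` (induction, as `hh (n + 1) c = (hh n (c + 1) + hh n (c - 1)) / 2`). So for `t ≤ n` the
probability of `c < |W(w.take t)|` is at most `hh t 0 / c ^ 4 ≤ 3 n ^ 2 / c ^ 4` (Markov; `E_append` for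
the first `t` letters). Sum over `t ∈ range (n + 1)` (an initial part of `w` is `w.take t`). -/
def S_WAL : Prop :=
  ∀ (n : ℕ) (c : ℝ), 0 < c →
    E n (fun w => I (∃ v, v <+: w ∧ c < |(v.count true : ℝ) - v.count false|)) ≤
      3 * (n + 1) * n ^ 2 / c ^ 4

/-- DET. The construction. Queue `(!b) ^ x b ^ y`. `v0 ++ [!b]` is the phase 0 (it contains `x` letters
`!b`), the greedy queue becomes `b ^ X`, `X = y + v0.count b` (`gr_phase`). `v1 ++ [b]` is the phase 1,
it contains `X` letters `b`, the greedy queue becomes `(!b) ^ Y`, `Y = v1.count (!b)`. With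
`j = s2.count b`, `f = s2.count (!b)`, `c = s3.count b`, `β = s.count (!b)` the greedy queue at the end is
`(!b) ^ (Y - f - β) b ^ (c + 2 j)` (`gr_two`). THE OTHER READING: from `b ^ X` read
`s ++ b ^ j ++ b ^ (J - j) ++ t ++ s2`; append all letters `!b` and the block `b ^ j`, cancel all other
letters `b` (they are `X` in number): the queue becomes `(!b) ^ β b ^ j (!b) ^ (Y + f - β)`. Then read
`s3 ++ b ^ j`, cancel the letters `!b` of `s3` and the block `b ^ j`, append the letters `b` of `s3`: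
`r = (!b) ^ (Y + f - β) b ^ c`. For `Que` one has to give the appended word `X'` and the cancelled word
`Y'` with `Shuf X' Y' W` and `q ++ X' = Y' ++ r`; use `Shuf.append`, `Shuf.all_left`, `Shuf.all_right`
and the proof of `que_transfer` (a word is a shuffle of `(!b) ^ _` and `b ^ _`). -/
def S_DET : Prop :=
  ∀ (b : Bool) (G J x y : ℕ) (v0 v1 s t s2 s3 : List Bool),
    (v0 ++ [!b]).count (!b) = x → (v1 ++ [b]).count b = y + v0.count b →
    s ++ List.replicate J b ++ t = v1 ++ [b] →
    s2.count b = s2.count (!b) + G → s2.count b ≤ J → s3.count (!b) = s.count (!b) →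
    s2.count (!b) + s3.count (!b) < v1.count (!b) →
    ∃ r, Que (List.replicate x (!b) ++ List.replicate y b)
        (v0 ++ [!b] ++ (v1 ++ [b]) ++ s2 ++ s3 ++ List.replicate (s2.count b) b) r ∧ R2 r ∧
      r.length + 2 * G = (gr (List.replicate x (!b) ++ List.replicate y b)
        (v0 ++ [!b] ++ (v1 ++ [b]) ++ s2 ++ s3 ++ List.replicate (s2.count b) b)).length ∧
      r.length + s3.count (!b) = v1.count (!b) + s2.count (!b) + s3.count b

/-- SUC. Success has probability `≥ 1 / 2`. PROOF. `G = 100`; `J` from `S_HIT` for both letters (take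
the maximum; `E n` of the event for `n ≥ J` is at most that for `J`), `B` from `S_MAT` (for both
letters, the maximum). `k = q.length ≥ K₀`, `K₀` large (`K₀ ≥ 8 (J + B)` and
`3 (8k+1) (8k)^2 / (k/8)^4 ≤ 1/8`). `q = (!b) ^ x b ^ y` with `x ≥ 1` (if `x = 0` exchange the letters), `x + y = k`.
EVENTS for `w` of length `8 k`: (1) `∃ v <+: w` with `|v.count true - v.count false| > k / 8`: at most
`1 / 8` (WAL). (2) `w = v ++ u`, `T1 v`, `J ≤ |u|`, and the level `G` is not hit by `u.take J`; here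
`T1 v`: `v = v0 ++ [!b] ++ (v1 ++ [b])` with `(v0 ++ [!b]).count (!b) = x`,
`(v1 ++ [b]).count b = y + v0.count b`; no element of `T1` is a proper initial part of another one, so at most `1 / 8` (PFX, `E_append`, HIT).
(3) `w = v ++ u`, `T0 v` (`v = v0 ++ [!b]`, `v.count (!b) = x`), `u = u1 ++ m ++ u3 ++ _`, `|u1| = |u3| = B`,
`v ++ u1 ++ m = v' ++ s2` with `T1 v'`, `s2.count b = s2.count (!b) + G` and no proper initial part of
`s2` has this property, and `¬ Mt b J u1 u3`: at most `1 / 8`: PFX for `T0`; for fixed `v`, `E_append` for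
`u1`; for fixed `u1`, PFX for the property of `m`, the rest is `u3 ++ _`; so at most
`E B (fun u1 => E B (fun u3 => I (¬ Mt b J u1 u3))) ≤ 1 / 8`. So with probability `≥ 5 / 8` none of the
three events holds. Then: by not (1), with `λ = k / 8`: `w` contains `≥ x` letters `!b`, so `v0` exists, its
length is `≤ 2 x + λ`, `X = y + v0.count b` is in `[k - λ, k + λ]`; the rest contains `≥ X` letters `b`, so
`v1` exists, `|v0 ++ [!b] ++ v1 ++ [b]| ≤ 5 k`, `Y = v1.count (!b) ≥ k - 3 λ ≥ k / 2 + B + J`, `|v1| ≥ B`. By not (2) the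
level is hit: `s2` (shortest), `|s2| ≤ J`. By not (3): `Mt b J u1 u3` for the first `B` letters `u1` of
`v1 ++ [b]` and the `B` letters `u3` after `s2`. DET (with `s`, `s3 = s'` from `Mt`; `s2.count b ≤ J`) gives
`Suc 100 q v`; `r.length ≥ Y - B ≥ k / 2`. (`Mt` gives `s' ++ b ^ J <+: u3`, so `s3 ++ b ^ j <+: u3`.) -/
def S_SUC : Prop :=
  ∃ K₀ : ℕ, ∀ q : List Bool, R2 q → K₀ ≤ q.length →
    1 / 2 ≤ E (8 * q.length) (fun w => I (∃ v, v <+: w ∧ Suc 100 q v))

def M_SUC : Prop := S_PFX → S_HIT → S_MAT → S_WAL → S_DET → S_SUC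

/-- LAP. The drift. PROOF. `k = q.length`. (a) Switching: for all `n` and `v` there is `F` with
`Que q (v ++ w) (F w)`, `R2 (F w)` for all `w` of length `n` and
`E n (fun w => |F w| ^ 4) ≤ hh n |gr q v| - 100 k ^ 3 * E n (fun w => I (∃ v', v' <+: w ∧ Suc 100 q (v ++ v')))`.
Induction on `n`: if `Suc 100 q v` with `r`, take `F w = gr r w`: `E n = hh n |r|` (`E_gr`), and
`hh n (|r| + 200) - hh n |r| ≥ (|r| + 200) ^ 4 - |r| ^ 4 ≥ 800 |r| ^ 3 ≥ 100 k ^ 3`. If not: `n = 0`: `F w = gr q v`
and the event is impossible; `n + 1`: take `F (a :: w)` from the induction hypothesis for `v ++ [a]`; the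
average of `hh n |gr q (v ++ [a])|` over `a` is `hh (n + 1) |gr q v|` (from `E_gr`, `E_succ`), and, as `[]` is no success,
the event for `a :: w` is the event for `v ++ [a]` and `w`. (b) `v = []`, `n = 8 k`, `S_SUC`:
`≤ k ^ 4 + 48 k ^ 3 + 192 k ^ 2 - 50 k ^ 3 ≤ k ^ 4 - k ^ 3` for `k ≥ 192`. -/
def S_LAP : Prop :=
  ∃ K₀ : ℕ, ∀ q : List Bool, R2 q → K₀ ≤ q.length → ∃ F : List Bool → List Bool,
    (∀ w, w.length = 8 * q.length → Que q w (F w) ∧ R2 (F w)) ∧
    E (8 * q.length) (fun w => ((F w).length : ℝ) ^ 4) ≤ (q.length : ℝ) ^ 4 - (q.length : ℝ) ^ 3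

def M_LAP : Prop := S_SUC → S_LAP

/-- BAD. Few bad times. PROOF. Let `κ ≥ K₀ + 1`, `A = 8 / κ ^ 2`, `β = A * (6 * K₀ ^ 2 + 1)`. CLAIM:
`E n (bd (9 κ) q) ≤ A * |q| ^ 4 + β * n` for all `n` and all `q` with `R2 q`; strong induction on `n`. Properties of
`bd` (`|w| = t + m`): if `Que q (w.take t) q'` then
`bd K q w ≤ (bad times < t) + bd K q' (w.drop t)` (compose with `Que.trans`), the number of bad times `< t`
is `≤ t`, and it is `0` if `|q| + t ≤ K` (greedy reading, `gr_length_le`). `k = |q|`. Case `k < K₀`, `n ≥ 1`: one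
greedy step (`t = 1`, `q' = st q a`), no bad time, the average of `|q'| ^ 4` is `≤ k ^ 4 + 6 k ^ 2 + 1` (`hh 1 k`, `E_gr`),
`β ≥ A (6 K₀ ^ 2 + 1)`. Case `k ≥ K₀`, `n ≥ 8 k`: `t = 8 k`, `q' = F w` (LAP); if `k ≤ κ` no bad time as
`9 k ≤ 9 κ`, and `E n ≤ A (k ^ 4 - k ^ 3) + β (n - 8 k)`; if `k > κ` at most `8 k` bad times, and
`8 k ≤ A k ^ 3`. Case `k ≥ K₀`, `n < 8 k`: if `k ≤ κ` no bad time; if `k > κ` at most `n ≤ 8 k ≤ A k ^ 4` bad times.
Case `n = 0`: trivial. Finally for `K ≥ 9 (K₀ + 1)` take `κ = K / 9 ≥ K / 18`, `q = []`: `E n (bd K []) ≤ β n`, and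
`β ≤ 8 * 324 * (6 * K₀ ^ 2 + 1) / K ^ 2`; for `K < 9 (K₀ + 1)`: `bd ≤ n`. -/
def S_BAD : Prop :=
  ∃ C : ℝ, 0 ≤ C ∧ ∀ K n : ℕ, 1 ≤ K → E n (bd K []) ≤ C * n / K

def M_BAD : Prop := S_LAP → S_BAD

/-- `w.take p` is even and `w` has the factor `F` at the place `p` -/
def Fa (F : List Bool) (p : ℕ) (w : List Bool) : Prop := EvenWord (w.take p) ∧ F <+: w.drop p

/-- FA. PROOF. `r` from the first, `r'` from the second assumption. By `que_even_count` (`w.take p` is
even) `r` is even; `w.drop (p + 2 * u.length)` is even (`w`, `w.take p` and `u ++ u.reverse` are even), so `r'`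
is even. `Que r u []`; `Que r'.reverse u []`, hence `Que [] u.reverse r'` (`que_reverse`). Compose:
`w = w.take p ++ (u ++ u.reverse) ++ w.drop (p + 2 * u.length)`. -/
def S_FA : Prop :=
  ∀ (K : ℕ) (u : List Bool), (∀ q : List Bool, EvenWord q → q.length ≤ K → Que q u []) →
    ∀ (p : ℕ) (w : List Bool), EvenWord w → Fa (u ++ u.reverse) p w →
      (∃ r, Que [] (w.take p) r ∧ r.length ≤ K) →
      (∃ r, Que r (w.drop (p + 2 * u.length)) [] ∧ r.length ≤ K) → Que [] w []

/-- FB. PROOF. Induction on `M` (for all `n`; the statement for `M + 1` concerns the first `M` blocks and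
the last one): `n = p + (l + 2) + m` with `p = c + M * (l + 2)`, `l = F.length`; for fixed `w.take p` (of even length!) the
`2` letters `d d'` after it and then `F`: if `w.take p` contains an even number of `true` (hence an even
number of `false`, the length is even) take `d d' = false false`, otherwise take `d d' = true false`; then
`Fa F (p + 2) w` holds. So for fixed `w.take p` the probability that `Fa F (p + 2) w` fails is
`≤ 1 - (1 / 2) ^ (l + 2)` (`E_append` twice; for one given word `x` of length `l + 2`,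
`E (l + 2) (fun v => I (v = x)) = (1 / 2) ^ (l + 2)`), and the other events (`i < M`) only depend on `w.take p`. -/
def S_FB : Prop :=
  ∀ (F : List Bool) (c M n : ℕ), Even c → Even F.length → c + M * (F.length + 2) ≤ n →
    E n (fun w => I (∀ i < M, ¬ Fa F (c + i * (F.length + 2) + 2) w)) ≤
      (1 - (1 / 2 : ℝ) ^ (F.length + 2)) ^ M

/-- FC. Choice of a good starting place. PROOF. Let `N = n / 4` (floor). The sum of
`∑ i ∈ range M, g (2 c + i * d)` over `c ∈ range N` is `∑ i, ∑ c, g (2 c + i * d) ≤ M * B`, because for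
fixed `i` the numbers `2 c + i d` are different and `< n` (`2 c ≤ n / 2`, `i d ≤ n / 2 - 1`). So some `c < N`
has sum `≤ M * B / N ≤ 8 * M * B / n` (`N ≥ n / 8` for `n ≥ 4`). -/
def S_FC : Prop :=
  ∀ (g : ℕ → ℝ) (n M d : ℕ) (B : ℝ), (∀ p, 0 ≤ g p) → ∑ p ∈ Finset.range n, g p ≤ B →
    4 ≤ n → 2 * (M * d) + 2 ≤ n →
    ∃ c : ℕ, Even c ∧ c + M * d ≤ n ∧ ∑ i ∈ Finset.range M, g (c + i * d) ≤ 8 * M * B / n

/-- FD. PROOF. `n` odd: there is no even word. `ε < 1`, `C` from BAD; choose `K ≥ 1` with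
`2 * 16 * C / K * (4 * log (2 / ε) + 1) ≤ ε / 2`, `u` from UNI, `F = u ++ u.reverse`, `l = F.length = 2 u.length`,
`M = ⌈2 ^ (l + 2) * log (2 / ε)⌉`, so `(1 - (1/2) ^ (l+2)) ^ M ≤ ε / 2`. For `n` large and even let
`fb p = E n (fun w => I (¬ ∃ r, Que [] (w.take p) r ∧ r.length ≤ K))`,
`bb p = E n (fun w => I (¬ ∃ r, Que r (w.drop p) [] ∧ r.length ≤ K))`. `∑ p < n, fb p = E n (bd K []) ≤ C n / K`
(`E_sum`), `bb p ≤ fb (n - p)` for `p ≤ n` by `E_reverse` and `que_reverse`. FC with `d = l + 2`,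
`g p = fb (p + 2) + bb (p + 2 + l)` for `p + 2 + l ≤ n`, `p + 2 < n`, and `0` otherwise, `B = 2 C n / K`, gives `c`. By FA an
even word with `¬ Que [] w []` satisfies: for all `i < M`, with `p = c + i * (l + 2) + 2`: `¬ Fa F p w`, or
`Fa F p w` and one of the two bad events. `P (Fa F p w and bad event at p) ≤ (1/2) ^ l * fb p` (the event
depends on `w.take p`, the factor on the next `l` letters, `E_append`), the same for the event at `p + l`, which
depends on `w.drop (p + l)`. So the probability is at most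
`ε / 2 + (1/2) ^ l * 8 * M * (2 C n / K) / n ≤ ε / 2 + ε / 2`. -/
def S_FD : Prop :=
  ∀ ε : ℝ, 0 < ε → ∃ n₀ : ℕ, ∀ n ≥ n₀, E n (fun w => I (EvenWord w ∧ ¬ Que [] w [])) ≤ ε

def M_FD : Prop := S_UNI → S_BAD → S_FA → S_FB → S_FC → S_FD

end Pool.Agent.AA
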